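import Pool.Agent.K3h13.PCO.PB

set_option autoImplicit false

/-!
Correlations of two levels with a weight.
-/

namespace Pool.Agent.K3h13.PCO

open Finset Filter Topology MeasureTheory
open Pool.Agent.Y122.PC
open Pool.Agent.H305R2 (ff ff_nonneg ff_le_one measurable_ff bounds integrableOn_ff)

/-- A weight on the plane that vanishes off a box. -/
structure Wt (ψ : ℝ × ℝ → ℝ) (x0 x1 y0 y1 C : ℝ) : Prop where
  meas : Measurable ψ
  bd : ∀ z, |ψ z| ≤ C
  supp : ∀ z, z ∉ Bx x0 x1 y0 y1 → ψ z = 0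
  unif : ∀ ε : ℝ, 0 < ε → ∃ θ : ℝ, 0 < θ ∧
    ∀ z v : ℝ × ℝ, |v.1| ≤ θ → |v.2| ≤ θ → |ψ (z + v) - ψ z| ≤ ε

lemma integrable_abs {α : Type} [MeasurableSpace α] {μ : Measure α} [IsFiniteMeasure μ]
    {f : α → ℝ} (hf : Measurable f) {C : ℝ} (h1 : ∀ z, |f z| ≤ C) :
    Integrable f μ :=
  Integrable.of_bound hf.aestronglyMeasurable C (Eventually.of_forall h1)

lemma int_of_supp {x0 x1 y0 y1 : ℝ} {g : ℝ × ℝ → ℝ} (hg : Measurable g) {C : ℝ}
    (hb : ∀ z, |g z| ≤ C) (hs : ∀ z, z ∉ Bx x0 x1 y0 y1 → g z = 0) : Integrable g volume := by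
  have h : IntegrableOn g (Bx x0 x1 y0 y1) volume := integrable_abs hg hb
  rwa [integrableOn_iff_integrable_of_support_subset] at h
  intro z hz
  by_contra hn
  exact hz (hs z hn)

lemma Wt.C_nonneg {ψ : ℝ × ℝ → ℝ} {x0 x1 y0 y1 C : ℝ} (h : Wt ψ x0 x1 y0 y1 C) : 0 ≤ C :=
  (abs_nonneg _).trans (h.bd 0)

lemma F_abs (p q : ℕ) (z : ℝ × ℝ) : |F p q z| ≤ 1 := by
  rw [abs_of_nonneg (F_nonneg p q z)]; exact F_le_one p q z

lemma Wt.int_mul {ψ : ℝ × ℝ → ℝ} {x0 x1 y0 y1 C : ℝ} (h : Wt ψ x0 x1 y0 y1 C)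
    {g : ℝ × ℝ → ℝ} (hg : Measurable g) (hb : ∀ z, |g z| ≤ 1) :
    Integrable (fun z => ψ z * g z) volume :=
  int_of_supp (h.meas.mul hg) (C := C) (fun z => by
    rw [abs_mul]
    have := mul_le_mul (h.bd z) (hb z) (abs_nonneg _) h.C_nonneg
    linarith) (fun z hz => by rw [h.supp z hz, zero_mul])

lemma swapW {p q : ℕ} {l : ℝ} (hl : 0 < l) {ψ : ℝ × ℝ → ℝ} {x0 x1 y0 y1 C : ℝ}
    (h : Wt ψ x0 x1 y0 y1 C) :
    ∫ w in Set.Ioc 0 l ×ˢ Set.Ioc 0 l, (∫ z : ℝ × ℝ,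
      ψ z * (ff p (p * z.1 + z.2 + w.1) * ff q (q * z.1 + z.2 + w.2))) =
      l ^ 2 * ∫ z, ψ z * G p q l z := by
  have e0 : ∀ w : ℝ × ℝ, ∫ z : ℝ × ℝ,
      ψ z * (ff p (p * z.1 + z.2 + w.1) * ff q (q * z.1 + z.2 + w.2)) =
      ∫ z in Bx x0 x1 y0 y1,
      ψ z * (ff p (p * z.1 + z.2 + w.1) * ff q (q * z.1 + z.2 + w.2)) := fun w =>
    (setIntegral_eq_integral_of_forall_compl_eq_zero (fun z hz => by
      rw [h.supp z hz, zero_mul])).symm
  have e1 : ∫ z, ψ z * G p q l z = ∫ z in Bx x0 x1 y0 y1, ψ z * G p q l z :=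
    (setIntegral_eq_integral_of_forall_compl_eq_zero (fun z hz => by
      rw [h.supp z hz, zero_mul])).symm
  simp_rw [e0]
  rw [e1]
  have : IsFiniteMeasure (volume.restrict (Set.Ioc (0 : ℝ) l ×ˢ Set.Ioc (0 : ℝ) l)) := ⟨by
      rw [Measure.restrict_apply_univ, Measure.volume_eq_prod, Measure.prod_prod]
      exact ENNReal.mul_lt_top (by simp) (by simp)⟩
  rw [integral_integral_swap, ← integral_const_mul]
  · refine integral_congr_ae (Eventually.of_forall fun z => ?_)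
    have h := setIntegral_prod_mul (μ := (volume : Measure ℝ)) (ν := (volume : Measure ℝ))
      (fun t => ff p (p * z.1 + z.2 + t)) (fun t => ff q (q * z.1 + z.2 + t)) (Set.Ioc 0 l) (Set.Ioc 0 l)
    change ∫ w in Set.Ioc 0 l ×ˢ Set.Ioc 0 l, ψ z * (ff p (p * z.1 + z.2 + w.1) *
      ff q (q * z.1 + z.2 + w.2)) = _
    rw [integral_const_mul, Measure.volume_eq_prod, h]
    unfold G Av
    field_simp
  · refine integrable_abs (C := C) ?_ ?_
    · exact (h.meas.comp measurable_snd).mul (measurable_kernel p q)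
    · intro r
      simp only [Function.uncurry]
      rw [abs_mul]
      have h1 : |ff p (p * r.2.1 + r.2.2 + r.1.1) * ff q (q * r.2.1 + r.2.2 + r.1.2)| ≤ 1 := by
        rw [abs_of_nonneg (mul_nonneg (ff_nonneg _ _) (ff_nonneg _ _))]
        exact mul_le_one₀ (ff_le_one _ _) (ff_nonneg _ _) (ff_le_one _ _)
      have := mul_le_mul (h.bd r.2) h1 (abs_nonneg _) h.C_nonneg
      linarith

/-- comparison of the weighted correlation with the product of the window means -/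
lemma cmpW {p q : ℕ} (hpq : p ≠ q) {l ξ η : ℝ} (hl : 0 < l) (hξ : l ≤ ξ * |(q : ℝ) - p|)
    (hη : l + p * ξ ≤ η) {ψ : ℝ × ℝ → ℝ} {x0 x1 y0 y1 C : ℝ} (h : Wt ψ x0 x1 y0 y1 C)
    {θ ε : ℝ} (hε : 0 ≤ ε)
    (hu : ∀ z v : ℝ × ℝ, |v.1| ≤ θ → |v.2| ≤ θ → |ψ (z + v) - ψ z| ≤ ε)
    (hξθ : ξ ≤ θ) (hηθ : η ≤ θ) :
    |(∫ z, ψ z * F p q z) - ∫ z, ψ z * G p q l z| ≤
      ε * I (x0 - θ) (x1 + θ) (y0 - θ) (y1 + θ) p q := by
  have key : ∀ w ∈ Set.Ioc (0 : ℝ) l ×ˢ Set.Ioc (0 : ℝ) l, |(∫ z, ψ z * F p q z) -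
      ∫ z : ℝ × ℝ, ψ z * (ff p (p * z.1 + z.2 + w.1) * ff q (q * z.1 + z.2 + w.2))| ≤
      ε * I (x0 - θ) (x1 + θ) (y0 - θ) (y1 + θ) p q := by
    intro w hw
    obtain ⟨b1, b2⟩ := sh_bound hpq hξ hη hw
    set v := sh p q w with hv
    have e1 : ∫ z : ℝ × ℝ, ψ z * (ff p (p * z.1 + z.2 + w.1) * ff q (q * z.1 + z.2 + w.2)) =
        ∫ z : ℝ × ℝ, ψ (z - v) * F p q z := by
      rw [← integral_add_right_eq_self (μ := (volume : Measure (ℝ × ℝ)))
        (fun z => ψ (z - v) * F p q z) v]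
      refine integral_congr_ae (Eventually.of_forall fun z => ?_)
      simp only [add_sub_cancel_right]
      rw [hv, F_shift hpq]
    rw [e1]
    have i1 : Integrable (fun z => ψ z * F p q z) volume := h.int_mul (measurable_F p q) (F_abs p q)
    have i2 : Integrable (fun z => ψ (z - v) * F p q z) volume := by
      have h0 := (h.int_mul (g := fun z => F p q (z + v)) ((measurable_F p q).comp (measurable_add_const v))
        (fun z => F_abs p q _)).comp_sub_right v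
      simpa only [sub_add_cancel] using h0
    rw [← integral_sub i1 i2]
    have h2 : ∀ z, ‖ψ z * F p q z - ψ (z - v) * F p q z‖ ≤
        (Bx (x0 - θ) (x1 + θ) (y0 - θ) (y1 + θ)).indicator (fun z => ε * F p q z) z := by
      intro z
      rw [← sub_mul, norm_mul, Real.norm_eq_abs, Real.norm_of_nonneg (F_nonneg p q z)]
      by_cases hz : z ∈ Bx (x0 - θ) (x1 + θ) (y0 - θ) (y1 + θ)
      · rw [Set.indicator_of_mem hz]
        refine mul_le_mul_of_nonneg_right ?_ (F_nonneg p q z)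
        have h3 := hu z (-v) (by rw [Prod.fst_neg, abs_neg]; exact b1.trans hξθ)
          (by rw [Prod.snd_neg, abs_neg]; exact b2.trans hηθ)
        rw [← sub_eq_add_neg] at h3
        rw [abs_sub_comm]
        exact h3
      · rw [Set.indicator_of_notMem hz]
        have c1 := abs_le.1 (b1.trans hξθ)
        have c2 := abs_le.1 (b2.trans hηθ)
        have hθ : 0 ≤ θ := (abs_nonneg _).trans (b1.trans hξθ)
        have z1 : ψ z = 0 := h.supp z fun hz' => hz (by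
          obtain ⟨⟨a1, a2⟩, a3, a4⟩ := hz'
          refine ⟨⟨?_, ?_⟩, ?_, ?_⟩ <;> linarith)
        have z2 : ψ (z - v) = 0 := h.supp _ fun hz' => hz (by
          obtain ⟨⟨a1, a2⟩, a3, a4⟩ := hz'
          simp only [Prod.fst_sub, Prod.snd_sub] at a1 a2 a3 a4
          refine ⟨⟨?_, ?_⟩, ?_, ?_⟩ <;> linarith)
        rw [z1, z2]
        simp
    have hi : Integrable ((Bx (x0 - θ) (x1 + θ) (y0 - θ) (y1 + θ)).indicator (fun z => ε * F p q z))
        volume := by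
      rw [integrable_indicator_iff (measurable_Bx _ _ _ _)]
      exact integrable_abs (C := ε) ((measurable_F p q).const_mul ε) fun z => by
        rw [abs_mul, abs_of_nonneg hε]
        have := mul_le_mul_of_nonneg_left (F_abs p q z) hε
        linarith
    have h4 := norm_integral_le_of_norm_le hi (Eventually.of_forall h2)
    rw [Real.norm_eq_abs, integral_indicator (measurable_Bx _ _ _ _), integral_const_mul] at h4
    exact h4
  have hfin : volume (Set.Ioc (0 : ℝ) l ×ˢ Set.Ioc (0 : ℝ) l) < ⊤ := by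
    rw [Measure.volume_eq_prod, Measure.prod_prod]
    exact ENNReal.mul_lt_top (by simp) (by simp)
  have h5 := norm_setIntegral_le_of_norm_le_const (μ := (volume : Measure (ℝ × ℝ)))
    (f := fun w : ℝ × ℝ => (∫ z, ψ z * F p q z) -
      ∫ z : ℝ × ℝ, ψ z * (ff p (p * z.1 + z.2 + w.1) * ff q (q * z.1 + z.2 + w.2))) hfin key
  have : IsFiniteMeasure (volume.restrict (Set.Ioc (0 : ℝ) l ×ˢ Set.Ioc (0 : ℝ) l)) := ⟨by
      rw [Measure.restrict_apply_univ]; exact hfin⟩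
  have hmeas : Measurable (fun w : ℝ × ℝ => ∫ z : ℝ × ℝ, ψ z * (ff p (p * z.1 + z.2 + w.1) *
      ff q (q * z.1 + z.2 + w.2))) := by
    have hk : StronglyMeasurable (fun r : (ℝ × ℝ) × (ℝ × ℝ) => ψ r.2 * (ff p (p * r.2.1 + r.2.2 + r.1.1) *
      ff q (q * r.2.1 + r.2.2 + r.1.2))) :=
      ((h.meas.comp measurable_snd).mul (measurable_kernel p q)).stronglyMeasurable
    exact (hk.integral_prod_right' (ν := (volume : Measure (ℝ × ℝ)))).measurable
  have hint : Integrable (fun w : ℝ × ℝ => ∫ z : ℝ × ℝ, ψ z * (ff p (p * z.1 + z.2 + w.1) *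
      ff q (q * z.1 + z.2 + w.2))) (volume.restrict (Set.Ioc (0 : ℝ) l ×ˢ Set.Ioc (0 : ℝ) l)) := by
    refine Integrable.of_bound hmeas.aestronglyMeasurable
      (ε * I (x0 - θ) (x1 + θ) (y0 - θ) (y1 + θ) p q + |∫ z, ψ z * F p q z|) ?_
    filter_upwards [ae_restrict_mem (measurableSet_Ioc.prod measurableSet_Ioc)] with w hw
    have h1 := key w hw
    rw [Real.norm_eq_abs]
    have h2 := abs_sub_abs_le_abs_sub (∫ z : ℝ × ℝ, ψ z * (ff p (p * z.1 + z.2 + w.1) *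
      ff q (q * z.1 + z.2 + w.2))) (∫ z, ψ z * F p q z)
    rw [abs_sub_comm] at h1
    linarith
  rw [integral_sub (integrable_const _) hint, swapW hl h, setIntegral_const, vol_sq hl, smul_eq_mul,
    ← mul_sub, norm_mul, Real.norm_of_nonneg (by positivity), Real.norm_eq_abs, mul_comm] at h5
  exact le_of_mul_le_mul_right h5 (by positivity)

/-- **The product of the window means, with a weight.** -/
lemma JW_tendsto {l : ℝ} (hl : 0 < l) (hl1 : l ≤ 1) {ψ : ℝ × ℝ → ℝ} {x0 x1 y0 y1 C : ℝ}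
    (h : Wt ψ x0 x1 y0 y1 C) (hx0 : 0 < x0) :
    Tendsto (fun r : ℕ × ℕ => (∫ z, ψ z * G r.1 r.2 l z) *
      ((r.1 / Real.log r.1) * (r.2 / Real.log r.2))) (atTop ×ˢ atTop)
      (𝓝 (∫ z, ψ z * ((eg / z.1) * (eg / z.1)))) := by
  have e1 : ∀ r : ℕ × ℕ, ∫ z, ψ z * G r.1 r.2 l z = ∫ z in Bx x0 x1 y0 y1, ψ z * G r.1 r.2 l z :=
    fun r => (setIntegral_eq_integral_of_forall_compl_eq_zero (fun z hz => by
      rw [h.supp z hz, zero_mul])).symm
  have e2 : ∫ z, ψ z * ((eg / z.1) * (eg / z.1)) = ∫ z in Bx x0 x1 y0 y1, ψ z * ((eg / z.1) * (eg / z.1)) :=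
    (setIntegral_eq_integral_of_forall_compl_eq_zero (fun z hz => by
      rw [h.supp z hz, zero_mul])).symm
  simp_rw [e1]
  rw [e2]
  obtain ⟨K, hK, hev⟩ := Av_bound (c := x0 / 2) (by positivity)
  have hone : ∀ᶠ p : ℕ in atTop, ∀ z ∈ Bx x0 x1 y0 y1,
      0 ≤ Av p l (p * z.1 + z.2) * (p / Real.log p) ∧
      Av p l (p * z.1 + z.2) * (p / Real.log p) ≤ K * (1 + 1 / l) := by
    filter_upwards [hev, arg_large hx0 x1 y0 y1, eventually_gt_atTop 2] with p h1 h2 h3 z hz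
    have hp0 : (2 : ℝ) < p := by exact_mod_cast h3
    have hlog : 0 < Real.log p := Real.log_pos (by linarith)
    refine ⟨mul_nonneg (Av_nonneg p hl _) (by positivity), ?_⟩
    have h4 := h1 (p * z.1 + z.2) l hl (h2 z hz)
    calc Av p l (p * z.1 + z.2) * (p / Real.log p) ≤
        K * (1 + 1 / (l * p)) * (Real.log p / p) * (p / Real.log p) := by gcongr
      _ = K * (1 + 1 / (l * p)) := by field_simp
      _ ≤ K * (1 + 1 / l) := by
        have : l * 1 ≤ l * p := mul_le_mul_of_nonneg_left (by linarith) hl.le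
        rw [mul_one] at this
        gcongr
  have key : Tendsto (fun r : ℕ × ℕ => ∫ z in Bx x0 x1 y0 y1,
      ψ z * ((Av r.1 l (r.1 * z.1 + z.2) * (r.1 / Real.log r.1)) *
      (Av r.2 l (r.2 * z.1 + z.2) * (r.2 / Real.log r.2)))) (atTop ×ˢ atTop)
      (𝓝 (∫ z in Bx x0 x1 y0 y1, ψ z * ((eg / z.1) * (eg / z.1)))) := by
    refine tendsto_integral_filter_of_dominated_convergence
      (fun _ => C * ((K * (1 + 1 / l)) * (K * (1 + 1 / l)))) ?_ ?_ ?_ ?_
    · refine Eventually.of_forall fun r => Measurable.aestronglyMeasurable ?_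
      exact h.meas.mul ((((measurable_Av _).comp (by fun_prop)).mul_const _).mul
        (((measurable_Av _).comp (by fun_prop)).mul_const _))
    · filter_upwards [hone.prod_mk hone] with r hr
      filter_upwards [ae_restrict_mem (measurable_Bx x0 x1 y0 y1)] with z hz
      obtain ⟨a1, a2⟩ := hr.1 z hz
      obtain ⟨b1, b2⟩ := hr.2 z hz
      rw [norm_mul, Real.norm_of_nonneg (mul_nonneg a1 b1), Real.norm_eq_abs]
      exact mul_le_mul (h.bd z) (mul_le_mul a2 b2 b1 (a1.trans a2)) (mul_nonneg a1 b1) h.C_nonneg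
    · exact integrable_const _
    · filter_upwards [ae_restrict_mem (measurable_Bx x0 x1 y0 y1)] with z hz
      have hz1 : 0 < z.1 := hx0.trans hz.1.1
      exact (((Av_tendsto hl hl1 hz1 z.2).comp tendsto_fst).mul
        ((Av_tendsto hl hl1 hz1 z.2).comp tendsto_snd)).const_mul _
  refine key.congr fun r => ?_
  rw [← integral_mul_const]
  refine integral_congr_ae (Eventually.of_forall fun z => ?_)
  simp only [G]
  ring

/-- **Upper bound, with a weight.** -/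
theorem nearW {ψ : ℝ × ℝ → ℝ} {x0 x1 y0 y1 C : ℝ}
    (h : Wt ψ x0 x1 y0 y1 C) (hx0 : 0 < x0) {R : ℝ} (hR : 0 < R) :
    ∃ K : ℝ, 0 < K ∧ ∃ N : ℕ, ∀ p q : ℕ, N ≤ p → N ≤ q → p ≠ q → ((p : ℝ) + q) ≤ R * p →
    ((p : ℝ) + q) ≤ R * q → |∫ z, ψ z * F p q z| ≤ K * (w p * w q) := by
  obtain ⟨K, hK, N, hN⟩ := near (x0 := x0) x1 y0 y1 hx0 hR
  refine ⟨C * K + 1, by have := h.C_nonneg; positivity, N, fun p q hp hq hne h1 h2 => ?_⟩
  have h3 := hN p q hp hq hne h1 h2
  change I x0 x1 y0 y1 p q ≤ K * (w p * w q) at h3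
  have h4 : |∫ z, ψ z * F p q z| ≤ C * I x0 x1 y0 y1 p q := by
    rw [← setIntegral_eq_integral_of_forall_compl_eq_zero (s := Bx x0 x1 y0 y1) (fun z hz => by
      rw [h.supp z hz, zero_mul])]
    unfold I
    rw [← integral_const_mul]
    have hi : Integrable (fun z => C * F p q z) (volume.restrict (Bx x0 x1 y0 y1)) :=
      integrable_abs (C := C) ((measurable_F p q).const_mul C) fun z => by
        rw [abs_mul, abs_of_nonneg h.C_nonneg]
        have := mul_le_mul_of_nonneg_left (F_abs p q z) h.C_nonneg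
        linarith
    have := norm_integral_le_of_norm_le hi (f := fun z => ψ z * F p q z)
      (Eventually.of_forall fun z => by
        rw [norm_mul, Real.norm_eq_abs, Real.norm_of_nonneg (F_nonneg p q z)]
        exact mul_le_mul_of_nonneg_right (h.bd z) (F_nonneg p q z))
    rwa [Real.norm_eq_abs] at this
  have h5 : 0 ≤ w p * w q := mul_nonneg (w_nonneg p) (w_nonneg q)
  have h6 := mul_le_mul_of_nonneg_left h3 h.C_nonneg
  have h7 : (C * K + 1) * (w p * w q) = C * (K * (w p * w q)) + w p * w q := by ring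
  rw [h7]
  linarith

/-- **Levels that are not close, with a weight.** -/
theorem farW {ψ : ℝ × ℝ → ℝ} {x0 x1 y0 y1 C : ℝ}
    (h : Wt ψ x0 x1 y0 y1 C) (hx0 : 0 < x0) {R ε δ : ℝ} (hR : 0 < R) (hε : 0 < ε)
    (hδ : 0 < δ) : ∃ N : ℕ, ∀ p q : ℕ, N ≤ p → N ≤ q → ((p : ℝ) + q) ≤ R * p →
      ((p : ℝ) + q) ≤ R * q → δ * ((p : ℝ) + q) ≤ |(q : ℝ) - p| →
    |(∫ z, ψ z * F p q z) * ((p / Real.log p) * (q / Real.log q)) -
      ∫ z, ψ z * ((eg / z.1) * (eg / z.1))| ≤ ε := by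
  -- the upper bound on an enlarged box
  obtain ⟨K, hK, N1, hN1⟩ := near (x0 := x0 / 2) (x1 + 1) (y0 - 1) (y1 + 1) (by positivity) hR
  obtain ⟨θ0, hθ0, hu0⟩ := h.unif (ε / (2 * K)) (by positivity)
  obtain ⟨θ, hθp, hθ1, hθx, hθu⟩ : ∃ θ : ℝ, 0 < θ ∧ θ ≤ 1 ∧ θ ≤ x0 / 2 ∧ θ ≤ θ0 :=
    ⟨min (min 1 (x0 / 2)) θ0, by positivity, (min_le_left _ _).trans (min_le_left _ _),
      (min_le_left _ _).trans (min_le_right _ _), min_le_right _ _⟩
  -- the length of the windows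
  obtain ⟨l, hl0, hl1, hlθ, hlδ⟩ : ∃ l : ℝ, 0 < l ∧ l ≤ 1 ∧ l ≤ θ ∧ l + l / δ ≤ θ := by
    refine ⟨θ * (δ / (1 + δ)), by positivity, ?_, ?_, ?_⟩
    · have : δ / (1 + δ) ≤ 1 := (div_le_one (by positivity)).2 (by linarith)
      nlinarith [div_nonneg hδ.le (show 0 ≤ 1 + δ by linarith)]
    · have : δ / (1 + δ) ≤ 1 := (div_le_one (by positivity)).2 (by linarith)
      nlinarith [div_nonneg hδ.le (show 0 ≤ 1 + δ by linarith)]
    · apply le_of_eq
      field_simp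
      ring
  have j1 := JW_tendsto hl0 hl1 h hx0
  rw [prod_atTop_atTop_eq, Metric.tendsto_atTop] at j1
  obtain ⟨⟨n1, n2⟩, hn⟩ := j1 (ε / 2) (by positivity)
  refine ⟨max (max n1 n2) (max N1 3), fun p q hp hq hr1 hr2 hpq => ?_⟩
  have hp1 : n1 ≤ p := ((le_max_left _ _).trans (le_max_left _ _)).trans hp
  have hq1 : n2 ≤ q := ((le_max_right _ _).trans (le_max_left _ _)).trans hq
  have hpN : N1 ≤ p := ((le_max_left _ _).trans (le_max_right _ _)).trans hp
  have hqN : N1 ≤ q := ((le_max_left _ _).trans (le_max_right _ _)).trans hq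
  have hp3 : (3 : ℝ) ≤ p := by exact_mod_cast ((le_max_right _ _).trans (le_max_right _ _)).trans hp
  have hq3 : (3 : ℝ) ≤ q := by exact_mod_cast ((le_max_right _ _).trans (le_max_right _ _)).trans hq
  have g1 := hn (p, q) (Prod.mk_le_mk.2 ⟨hp1, hq1⟩)
  rw [Real.dist_eq] at g1
  have hh : 0 < |(q : ℝ) - p| := lt_of_lt_of_le (by positivity) hpq
  have hne : p ≠ q := by
    rintro rfl
    simp at hh
  have hlp : 0 < Real.log p := Real.log_pos (by linarith)
  have hlq : 0 < Real.log q := Real.log_pos (by linarith)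
  have hW : 0 < ((p : ℝ) / Real.log p) * (q / Real.log q) := by positivity
  have hww : w p * w q * (((p : ℝ) / Real.log p) * (q / Real.log q)) = 1 := by
    unfold w; field_simp
  have hh1 : 1 ≤ |(q : ℝ) - p| := by
    have : (1 : ℤ) ≤ |(q : ℤ) - p| := Int.one_le_abs (sub_ne_zero.2 (by exact_mod_cast hne.symm))
    exact_mod_cast this
  have hξ : l ≤ l / |(q : ℝ) - p| * |(q : ℝ) - p| := le_of_eq (div_mul_cancel₀ _ hh.ne').symm
  have hξθ : l / |(q : ℝ) - p| ≤ θ := by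
    rw [div_le_iff₀ hh]
    nlinarith
  have hη : l + p * (l / |(q : ℝ) - p|) ≤ θ := by
    have : p * (l / |(q : ℝ) - p|) ≤ l / δ := by
      rw [← mul_div_assoc, div_le_div_iff₀ hh hδ]
      have : (p : ℝ) * δ ≤ |(q : ℝ) - p| := by nlinarith
      nlinarith
    linarith
  have u1 := cmpW hne hl0 hξ le_rfl h (θ := θ) (ε := ε / (2 * K)) (by positivity)
    (fun z v h1 h2 => hu0 z v (h1.trans hθu) (h2.trans hθu)) hξθ hη
  have u2 : I (x0 - θ) (x1 + θ) (y0 - θ) (y1 + θ) p q ≤ I (x0 / 2) (x1 + 1) (y0 - 1) (y1 + 1) p q := by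
    unfold I
    refine setIntegral_mono_set ?_ ?_ ?_
    · exact integrable_abs (C := 1) (measurable_F p q) (F_abs p q)
    · exact Eventually.of_forall fun z => F_nonneg p q z
    · refine LE.le.eventuallyLE ?_
      rintro z ⟨⟨a1, a2⟩, a3, a4⟩
      refine ⟨⟨?_, ?_⟩, ?_, ?_⟩ <;> linarith
  have u3 := hN1 p q hpN hqN hne hr1 hr2
  change I _ _ _ _ p q ≤ K * (w p * w q) at u3
  have u4 : |(∫ z, ψ z * F p q z) - ∫ z, ψ z * G p q l z| ≤ ε / 2 * (w p * w q) := by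
    refine u1.trans ?_
    calc ε / (2 * K) * I (x0 - θ) (x1 + θ) (y0 - θ) (y1 + θ) p q ≤ ε / (2 * K) * (K * (w p * w q)) := by
          gcongr
          exact u2.trans u3
      _ = ε / 2 * (w p * w q) := by field_simp
  have u5 := mul_le_mul_of_nonneg_right u4 hW.le
  rw [mul_assoc (ε / 2), hww, mul_one] at u5
  have u7 : |(∫ z, ψ z * F p q z) - ∫ z, ψ z * G p q l z| *
      (((p : ℝ) / Real.log p) * (q / Real.log q)) =
      |(∫ z, ψ z * F p q z) * (((p : ℝ) / Real.log p) * (q / Real.log q)) -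
      (∫ z, ψ z * G p q l z) * (((p : ℝ) / Real.log p) * (q / Real.log q))| := by
    rw [← sub_mul, abs_mul, abs_of_pos hW]
  rw [u7] at u5
  have u6 := abs_sub_le ((∫ z, ψ z * F p q z) * ((p / Real.log p) * (q / Real.log q)))
    ((∫ z, ψ z * G p q l z) * ((p / Real.log p) * (q / Real.log q)))
    (∫ z, ψ z * ((eg / z.1) * (eg / z.1)))
  linarith

end Pool.Agent.K3h13.PCO
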