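import Pool.Agent.Y122.PC.Fin

set_option autoImplicit false

/-!
Summation over the pairs of levels, for general correlations.
-/

namespace Pool.Agent.K3h13.PCO

open Finset Filter Topology MeasureTheory
open Pool.Agent.Y122.PC

/-- **The sum of the correlations.** -/
theorem sum_abs {J : ℕ → ℕ → ℝ} {T0 : ℝ} {a b c d : ℝ}
    (ha : 0 < a) (hab : a < b) (hc : 0 < c) (hcd : c < d)
    (hnear : ∀ R : ℝ, 0 < R → ∃ K : ℝ, 0 < K ∧ ∃ N : ℕ, ∀ p q : ℕ, N ≤ p → N ≤ q → p ≠ q →
      ((p : ℝ) + q) ≤ R * p → ((p : ℝ) + q) ≤ R * q → |J p q| ≤ K * (w p * w q))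
    (hfar : ∀ R ε δ : ℝ, 0 < R → 0 < ε → 0 < δ → ∃ N : ℕ, ∀ p q : ℕ, N ≤ p → N ≤ q →
      ((p : ℝ) + q) ≤ R * p → ((p : ℝ) + q) ≤ R * q → δ * ((p : ℝ) + q) ≤ |(q : ℝ) - p| →
      |J p q * ((p / Real.log p) * (q / Real.log q)) - T0| ≤ ε) :
    Tendsto (fun z : ℝ => ∑ p ∈ Pr (a * z) (b * z), ∑ q ∈ Pr (c * z) (d * z),
      |(if p ≠ q then J p q else 0) - T0 * (w p * w q)|) atTop (𝓝 0) := by
  have hb : 0 < b := ha.trans hab
  have hd : 0 < d := hc.trans hcd
  have m1 := mertens ha hab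
  have m2 := mertens hc hcd
  set l1 := Real.log (b / a) with hl1
  set l2 := Real.log (d / c) with hl2
  have hl1' : 0 < l1 := Real.log_pos ((one_lt_div ha).2 hab)
  have hl2' : 0 < l2 := Real.log_pos ((one_lt_div hc).2 hcd)
  set T1 := |T0| with hT1
  have hTpos : 0 ≤ T1 := abs_nonneg _
  have hdiff : Tendsto (fun z : ℝ => ∑ p ∈ Pr (a * z) (b * z), ∑ q ∈ Pr (c * z) (d * z),
      |(if p ≠ q then J p q else 0) - T0 * (w p * w q)|) atTop (𝓝 0) := by
    rw [Metric.tendsto_nhds]
    intro ε' hε'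
    simp only [Real.dist_eq, sub_zero]
    obtain ⟨K, hK, N1, hN1⟩ := hnear (1 + d / a + b / c) (by positivity)
    -- the parameters
    set κ := ε' / (4 * ((K + T1) * (l1 + 1))) with hκ
    have hκ0 : 0 < κ := by positivity
    set ε := ε' / (4 * ((l1 + 1) * (l2 + 1))) with hε
    have hε0 : 0 < ε := by positivity
    set r := Real.exp (κ / 4) with hr
    have hr1 : 1 < r := by
      have := Real.add_one_lt_exp (show κ / 4 ≠ 0 by positivity)
      rw [hr]; linarith [show 0 < κ / 4 by positivity]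
    have hr0 : 0 < r := by linarith
    set δ := (r - 1) / (r + 1) with hδ
    have hδ0 : 0 < δ := div_pos (by linarith) (by linarith)
    obtain ⟨N2, hN2⟩ := hfar (1 + d / a + b / c) ε δ (by positivity) hε0 hδ0
    have hw : ∀ᶠ z : ℝ in atTop, ∑ q ∈ Pr (1 / r * z) (r * z), w q < κ := by
      have h := mertens (a := 1 / r) (b := r) (by positivity) (by
        rw [div_lt_iff₀ hr0]; nlinarith)
      have e : Real.log (r / (1 / r)) = κ / 2 := by
        rw [div_div_eq_mul_div, div_one, Real.log_mul hr0.ne' hr0.ne', hr, Real.log_exp]; ring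
      rw [e] at h
      exact h.eventually_lt_const (by linarith)
    obtain ⟨Z, hZ⟩ := eventually_atTop.1 hw
    have hlarge : ∀ t : ℝ, 0 < t → ∀ B : ℝ, ∀ᶠ z : ℝ in atTop, B < t * z := fun t ht B =>
      (tendsto_id.const_mul_atTop ht).eventually_gt_atTop B
    filter_upwards [m1.eventually_lt_const (show l1 < l1 + 1 by linarith),
      m2.eventually_lt_const (show l2 < l2 + 1 by linarith),
      hlarge a ha (max (max N1 N2) Z), hlarge c hc (max (max N1 N2) Z), hlarge a ha 3, hlarge c hc 3,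
      eventually_gt_atTop 0] with z s1 s2 g1 g2 g3 g4 hz
    set P := Pr (a * z) (b * z) with hP
    set Q := Pr (c * z) (d * z) with hQ
    have haz : 0 ≤ a * z := by positivity
    have hbz : 0 ≤ b * z := by positivity
    have hcz : 0 ≤ c * z := by positivity
    have hdz : 0 ≤ d * z := by positivity
    have hPp : ∀ p ∈ P, (3 : ℝ) < p ∧ N1 ≤ p ∧ N2 ≤ p ∧ Z ≤ p ∧ a * z < p ∧ (p : ℝ) ≤ b * z := by
      intro p hp
      obtain ⟨_, h2, h3⟩ := (mem_Pr haz hbz).1 hp
      have h4 : (max (max N1 N2) Z : ℝ) < p := g1.trans h2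
      have h5 : (N1 : ℝ) < p := ((le_max_left _ _).trans (le_max_left _ _)).trans_lt h4
      have h6 : (N2 : ℝ) < p := ((le_max_right _ _).trans (le_max_left _ _)).trans_lt h4
      exact ⟨g3.trans h2, by exact_mod_cast h5.le, by exact_mod_cast h6.le,
        ((le_max_right _ _).trans_lt h4).le, h2, h3⟩
    have hQp : ∀ q ∈ Q, (3 : ℝ) < q ∧ N1 ≤ q ∧ N2 ≤ q ∧ c * z < q ∧ (q : ℝ) ≤ d * z := by
      intro p hp
      obtain ⟨_, h2, h3⟩ := (mem_Pr hcz hdz).1 hp
      have h4 : (max (max N1 N2) Z : ℝ) < p := g2.trans h2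
      have h5 : (N1 : ℝ) < p := ((le_max_left _ _).trans (le_max_left _ _)).trans_lt h4
      have h6 : (N2 : ℝ) < p := ((le_max_right _ _).trans (le_max_left _ _)).trans_lt h4
      exact ⟨g4.trans h2, by exact_mod_cast h5.le, by exact_mod_cast h6.le, h2, h3⟩
    have hterm : ∀ p ∈ P, ∀ q ∈ Q, |(if p ≠ q then J p q else 0) - T0 * (w p * w q)| ≤
        ε * (w p * w q) + if |(q : ℝ) - p| < δ * ((p : ℝ) + q) then (K + T1) * (w p * w q) else 0 := by
      intro p hp q hq
      obtain ⟨p3, pN1, pN2, pZ, pa, pb⟩ := hPp p hp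
      obtain ⟨q3, qN1, qN2, qc, qd⟩ := hQp q hq
      have hlp : 0 < Real.log p := Real.log_pos (by linarith)
      have hlq : 0 < Real.log q := Real.log_pos (by linarith)
      have hwp : 0 < w p := by unfold w; positivity
      have hwq : 0 < w q := by unfold w; positivity
      have hww : 0 < w p * w q := mul_pos hwp hwq
      have m1 : 0 ≤ K * (w p * w q) := by positivity
      have m2 : 0 ≤ T1 * (w p * w q) := by positivity
      have m3 : 0 ≤ ε * (w p * w q) := by positivity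
      have m4 : (K + T1) * (w p * w q) = K * (w p * w q) + T1 * (w p * w q) := add_mul _ _ _
      have m5 : |T0 * (w p * w q)| = T1 * (w p * w q) := by rw [abs_mul, abs_of_pos hww]
      have r1 : ((p : ℝ) + q) ≤ (1 + d / a + b / c) * p := by
        have : (q : ℝ) ≤ d / a * p := by
          rw [div_mul_eq_mul_div, le_div_iff₀ ha]
          nlinarith
        have : 0 ≤ b / c * p := by positivity
        nlinarith
      have r2 : ((p : ℝ) + q) ≤ (1 + d / a + b / c) * q := by
        have : (p : ℝ) ≤ b / c * q := by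
          rw [div_mul_eq_mul_div, le_div_iff₀ hc]
          nlinarith
        have : 0 ≤ d / a * q := by positivity
        nlinarith
      by_cases hn : |(q : ℝ) - p| < δ * ((p : ℝ) + q)
      · rw [if_pos hn]
        by_cases hpq : p ≠ q
        · rw [if_pos hpq]
          have h1 := hN1 p q pN1 qN1 hpq r1 r2
          have h2 := abs_sub (J p q) (T0 * (w p * w q))
          linarith
        · rw [if_neg hpq, zero_sub, abs_neg, m5]
          linarith
      · rw [if_neg hn, add_zero]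
        have hh : δ * ((p : ℝ) + q) ≤ |(q : ℝ) - p| := not_lt.1 hn
        have hpq : p ≠ q := by
          rintro rfl
          have : 0 < δ * ((p : ℝ) + p) := by positivity
          simp at hh
          linarith
        rw [if_pos hpq]
        have h1 := hN2 p q pN2 qN2 r1 r2 hh
        have e : ((p : ℝ) / Real.log p) * (q / Real.log q) = (w p * w q)⁻¹ := by
          unfold w
          field_simp
        rw [e] at h1
        have h3 : |J p q - T0 * (w p * w q)| =
            |J p q * (w p * w q)⁻¹ - T0| * (w p * w q) := by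
          rw [← abs_of_pos hww, ← abs_mul, abs_of_pos hww, sub_mul, inv_mul_cancel_right₀ hww.ne']
        rw [h3]
        exact mul_le_mul_of_nonneg_right h1 hww.le
    have hnear : ∀ p ∈ P, (∑ q ∈ Q, if |(q : ℝ) - p| < δ * ((p : ℝ) + q) then w q else 0) ≤ κ := by
      intro p hp
      obtain ⟨p3, _, _, pZ, _, _⟩ := hPp p hp
      have hp0 : (0 : ℝ) < p := by linarith
      refine le_trans ?_ (hZ p pZ).le
      rw [← Finset.sum_filter]
      refine Finset.sum_le_sum_of_subset_of_nonneg ?_ fun q _ _ => w_nonneg q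
      intro q hq
      obtain ⟨h1, h2⟩ := Finset.mem_filter.1 hq
      have hq0 : (0 : ℝ) < q := by linarith [(hQp q h1).1]
      rw [mem_Pr (by positivity) (by positivity)]
      refine ⟨((mem_Pr hcz hdz).1 h1).1, ?_, ?_⟩
      · rw [div_mul_eq_mul_div, one_mul, div_lt_iff₀ hr0]
        have h3 := (abs_lt.1 h2).1
        rw [hδ, div_mul_eq_mul_div, ← neg_div, div_lt_iff₀ (by linarith)] at h3
        nlinarith
      · have h3 := (abs_lt.1 h2).2
        rw [hδ, div_mul_eq_mul_div, lt_div_iff₀ (by linarith)] at h3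
        nlinarith
    have hS1 : 0 ≤ ∑ p ∈ P, w p := Finset.sum_nonneg fun p _ => w_nonneg p
    have hS2 : 0 ≤ ∑ q ∈ Q, w q := Finset.sum_nonneg fun p _ => w_nonneg p
    have hnn : 0 ≤ ∑ p ∈ P, ∑ q ∈ Q, |(if p ≠ q then J p q else 0) - T0 * (w p * w q)| :=
      Finset.sum_nonneg fun p _ => Finset.sum_nonneg fun q _ => abs_nonneg _
    have hfin : ∑ p ∈ P, ∑ q ∈ Q, |(if p ≠ q then J p q else 0) - T0 * (w p * w q)| ≤
        ε * ((∑ p ∈ P, w p) * ∑ q ∈ Q, w q) + (K + T1) * ((∑ p ∈ P, w p) * κ) := by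
      calc _ ≤ ∑ p ∈ P, ∑ q ∈ Q, (ε * (w p * w q) +
            if |(q : ℝ) - p| < δ * ((p : ℝ) + q) then (K + T1) * (w p * w q) else 0) :=
            Finset.sum_le_sum fun p hp => Finset.sum_le_sum fun q hq => hterm p hp q hq
        _ = ε * ((∑ p ∈ P, w p) * ∑ q ∈ Q, w q) + ∑ p ∈ P, (K + T1) * w p *
            (∑ q ∈ Q, if |(q : ℝ) - p| < δ * ((p : ℝ) + q) then w q else 0) := by
            rw [Finset.sum_mul_sum, Finset.mul_sum, ← Finset.sum_add_distrib]
            refine Finset.sum_congr rfl fun p _ => ?_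
            rw [Finset.mul_sum, Finset.mul_sum, ← Finset.sum_add_distrib]
            refine Finset.sum_congr rfl fun q _ => ?_
            split_ifs <;> ring
        _ ≤ ε * ((∑ p ∈ P, w p) * ∑ q ∈ Q, w q) + ∑ p ∈ P, (K + T1) * w p * κ := by
            gcongr with p hp
            · exact mul_nonneg (by linarith) (w_nonneg p)
            · exact hnear p hp
        _ = _ := by
            congr 1
            rw [Finset.sum_mul, Finset.mul_sum]
            exact Finset.sum_congr rfl fun p _ => by ring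
    have f1 : ε * ((∑ p ∈ P, w p) * ∑ q ∈ Q, w q) ≤ ε * ((l1 + 1) * (l2 + 1)) := by gcongr
    have f2 : (K + T1) * ((∑ p ∈ P, w p) * κ) ≤ (K + T1) * ((l1 + 1) * κ) := by gcongr
    have f3 : ε * ((l1 + 1) * (l2 + 1)) = ε' / 4 := by rw [hε]; field_simp
    have f4 : (K + T1) * ((l1 + 1) * κ) = ε' / 4 := by rw [hκ]; field_simp
    rw [abs_of_nonneg hnn]
    linarith
  exact hdiff

/-- arbitrary bounded coefficients -/
theorem sum_coef {J : ℕ → ℕ → ℝ} {T0 : ℝ} {a b c d : ℝ}
    (h : Tendsto (fun z : ℝ => ∑ p ∈ Pr (a * z) (b * z), ∑ q ∈ Pr (c * z) (d * z),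
      |(if p ≠ q then J p q else 0) - T0 * (w p * w q)|) atTop (𝓝 0)) (S S' : Set ℕ) :
    Tendsto (fun z : ℝ => (∑ p ∈ Pr (a * z) (b * z), ∑ q ∈ Pr (c * z) (d * z),
      S.indicator (fun _ => (1 : ℝ)) p * S'.indicator (fun _ => (1 : ℝ)) q *
        (if p ≠ q then J p q else 0)) - T0 * ((∑ p ∈ Pr (a * z) (b * z),
        S.indicator (fun _ => (1 : ℝ)) p * w p) *
        ∑ q ∈ Pr (c * z) (d * z), S'.indicator (fun _ => (1 : ℝ)) q * w q)) atTop (𝓝 0) := by
  refine squeeze_zero_norm (fun z => ?_) h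
  have e : (∑ p ∈ Pr (a * z) (b * z), ∑ q ∈ Pr (c * z) (d * z),
      S.indicator (fun _ => (1 : ℝ)) p * S'.indicator (fun _ => (1 : ℝ)) q *
        (if p ≠ q then J p q else 0)) - T0 * ((∑ p ∈ Pr (a * z) (b * z),
        S.indicator (fun _ => (1 : ℝ)) p * w p) *
        ∑ q ∈ Pr (c * z) (d * z), S'.indicator (fun _ => (1 : ℝ)) q * w q) =
      ∑ p ∈ Pr (a * z) (b * z), ∑ q ∈ Pr (c * z) (d * z),
      S.indicator (fun _ => (1 : ℝ)) p * S'.indicator (fun _ => (1 : ℝ)) q *
        ((if p ≠ q then J p q else 0) - T0 * (w p * w q)) := by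
    rw [Finset.sum_mul_sum, Finset.mul_sum, ← Finset.sum_sub_distrib]
    refine Finset.sum_congr rfl fun p _ => ?_
    rw [Finset.mul_sum, ← Finset.sum_sub_distrib]
    refine Finset.sum_congr rfl fun q _ => ?_
    ring
  rw [e, Real.norm_eq_abs]
  refine (Finset.abs_sum_le_sum_abs _ _).trans (Finset.sum_le_sum fun p _ =>
    (Finset.abs_sum_le_sum_abs _ _).trans (Finset.sum_le_sum fun q _ => ?_))
  rw [abs_mul, abs_mul]
  have h1 : ∀ (U : Set ℕ) (n : ℕ), |U.indicator (fun _ => (1 : ℝ)) n| ≤ 1 := by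
    intro U n
    by_cases hn : n ∈ U
    · rw [Set.indicator_of_mem hn]; simp
    · rw [Set.indicator_of_notMem hn]; simp
  have h2 : |S.indicator (fun _ => (1 : ℝ)) p| * |S'.indicator (fun _ => (1 : ℝ)) q| ≤ 1 :=
    mul_le_one₀ (h1 S p) (abs_nonneg _) (h1 S' q)
  have h3 := mul_le_mul_of_nonneg_right h2 (abs_nonneg ((if p ≠ q then J p q else 0) - T0 * (w p * w q)))
  rwa [one_mul] at h3

end Pool.Agent.K3h13.PCO
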