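import Pool.Agent.K3h13.PCO.PA

set_option autoImplicit false

/-!
Small changes of the arguments.
-/

namespace Pool.Agent.K3h13.PCO

open Finset Filter Topology MeasureTheory
open Pool.Agent.Y122.PC
open Pool.Agent.H305R2 (ff ff_nonneg ff_le_one measurable_ff bounds integrableOn_ff)

lemma one_dim {u v φ m h' : ℝ → ℝ} {A B s0 s1 ε η C : ℝ} (hAB : A ≤ B)
    (hu : Measurable u) (hv : Measurable v) (hφ : Measurable φ) (hm : Measurable m)
    (φ0 : ∀ t, 0 ≤ φ t) (φ1 : ∀ t, φ t ≤ 1) (hC : ∀ t, |u t| ≤ C) (hCv : ∀ t, |v t| ≤ C)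
    (hsu : ∀ t, t ∉ Set.Ioc s0 s1 → u t = 0) (hsv : ∀ t, t ∉ Set.Ioc s0 s1 → v t = 0)
    (hd : ∀ s ∈ Set.Icc A B, HasDerivAt m (1 + h' s) s)
    (hh : ∀ s ∈ Set.Icc A B, |h' s| ≤ η) (hms : ∀ s ∈ Set.Icc A B, |m s - s| ≤ η)
    (hη : η ≤ 1 / 2) (hA : A + η ≤ s0) (hB : s1 + η ≤ B)
    (hclose : ∀ s ∈ Set.Icc A B, |v s - u (m s)| ≤ ε) :
    |(∫ s, v s * φ (m s)) - ∫ t, u t * φ t| ≤
      2 * (ε + C * η) * ∫ t in Set.Ioc (A - 1) (B + 1), φ t := by
  have hAm : A ∈ Set.Icc A B := ⟨le_rfl, hAB⟩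
  have hBm : B ∈ Set.Icc A B := ⟨hAB, le_rfl⟩
  have hη0 : 0 ≤ η := (abs_nonneg _).trans (hh A hAm)
  have hε0 : 0 ≤ ε := (abs_nonneg _).trans (hclose A hAm)
  have hC0 : 0 ≤ C := (abs_nonneg _).trans (hC A)
  have hcont : ContinuousOn m (Set.Icc A B) := fun s hs => (hd s hs).continuousAt.continuousWithinAt
  have hpos : ∀ s ∈ Set.Icc A B, 1 / 2 ≤ 1 + h' s := fun s hs => by
    have := (abs_le.1 (hh s hs)).1
    linarith
  have hmono : StrictMonoOn m (Set.Icc A B) := by
    refine strictMonoOn_of_deriv_pos (convex_Icc A B) hcont fun s hs => ?_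
    have hs' := interior_subset hs
    rw [(hd s hs').deriv]
    linarith [hpos s hs']
  have hinj := hmono.injOn
  have hdw : ∀ s ∈ Set.Icc A B, HasDerivWithinAt m (1 + h' s) (Set.Icc A B) s := fun s hs =>
    (hd s hs).hasDerivWithinAt
  -- the images
  have him1 : Set.Ioc s0 s1 ⊆ m '' Set.Icc A B := by
    refine Set.Subset.trans ?_ (intermediate_value_Icc hAB hcont)
    intro t ht
    have a1 := (abs_le.1 (hms A hAm)).2
    have a2 := (abs_le.1 (hms B hBm)).1
    exact ⟨by linarith [ht.1], by linarith [ht.2]⟩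
  have him2 : m '' Set.Icc A B ⊆ Set.Ioc (A - 1) (B + 1) := by
    rintro _ ⟨s, hs, rfl⟩
    have a1 := abs_le.1 (hms s hs)
    exact ⟨by linarith [hs.1, a1.1], by linarith [hs.2, a1.2]⟩
  have hmim : MeasurableSet (m '' Set.Icc A B) :=
    (isCompact_Icc.image_of_continuousOn hcont).measurableSet
  have hsub : Set.Ioc s0 s1 ⊆ Set.Icc A B := fun t ht => ⟨by linarith [ht.1], by linarith [ht.2]⟩
  have e1 : ∫ s, v s * φ (m s) = ∫ s in Set.Icc A B, v s * φ (m s) :=
    (setIntegral_eq_integral_of_forall_compl_eq_zero (fun s hs => by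
      rw [hsv s (fun h => hs (hsub h)), zero_mul])).symm
  have e2 : ∫ t, u t * φ t = ∫ s in Set.Icc A B, |1 + h' s| • (u (m s) * φ (m s)) := by
    rw [← integral_image_eq_integral_abs_deriv_smul measurableSet_Icc hdw hinj (fun t => u t * φ t)]
    exact (setIntegral_eq_integral_of_forall_compl_eq_zero (fun s hs => by
      rw [hsu s (fun h => hs (him1 h)), zero_mul])).symm
  have e3 : ∫ t in m '' Set.Icc A B, φ t = ∫ s in Set.Icc A B, |1 + h' s| • φ (m s) :=
    integral_image_eq_integral_abs_deriv_smul measurableSet_Icc hdw hinj φ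
  have f1 : IntegrableOn φ (Set.Ioc (A - 1) (B + 1)) volume :=
    integrable_abs (C := 1) hφ fun t => by rw [abs_of_nonneg (φ0 t)]; exact φ1 t
  have i3 : IntegrableOn (fun s => |1 + h' s| • φ (m s)) (Set.Icc A B) volume :=
    (integrableOn_image_iff_integrableOn_abs_deriv_smul measurableSet_Icc hdw hinj φ).1
      (f1.mono_set him2)
  have f2 : IntegrableOn (fun t => u t * φ t) (Set.Ioc (A - 1) (B + 1)) volume :=
    integrable_abs (C := C) (hu.mul hφ) fun t => by
      rw [abs_mul, abs_of_nonneg (φ0 t)]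
      have := mul_le_mul (hC t) (φ1 t) (φ0 t) hC0
      linarith
  have i2 : IntegrableOn (fun s => |1 + h' s| • (u (m s) * φ (m s))) (Set.Icc A B) volume :=
    (integrableOn_image_iff_integrableOn_abs_deriv_smul measurableSet_Icc hdw hinj
      (fun t => u t * φ t)).1 (f2.mono_set him2)
  have i1 : IntegrableOn (fun s => v s * φ (m s)) (Set.Icc A B) volume :=
    integrable_abs (C := C) (hv.mul (hφ.comp hm)) fun t => by
      rw [abs_mul, abs_of_nonneg (φ0 _)]
      have := mul_le_mul (hCv t) (φ1 (m t)) (φ0 _) hC0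
      linarith
  rw [e1, e2, ← integral_sub i1 i2]
  have hb : ∀ s ∈ Set.Icc A B, ‖v s * φ (m s) - |1 + h' s| • (u (m s) * φ (m s))‖ ≤
      2 * (ε + C * η) * (|1 + h' s| • φ (m s)) := by
    intro s hs
    have p1 := hpos s hs
    have p2 : 0 < 1 + h' s := by linarith
    rw [smul_eq_mul, smul_eq_mul, abs_of_pos p2, Real.norm_eq_abs]
    have e : v s * φ (m s) - (1 + h' s) * (u (m s) * φ (m s)) =
        ((v s - u (m s)) - h' s * u (m s)) * φ (m s) := by ring
    rw [e, abs_mul, abs_of_nonneg (φ0 _)]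
    have q1 : |(v s - u (m s)) - h' s * u (m s)| ≤ ε + C * η := by
      refine (abs_sub _ _).trans ?_
      rw [abs_mul]
      have := mul_le_mul (hh s hs) (hC (m s)) (abs_nonneg _) hη0
      linarith [hclose s hs]
    have q2 : 0 ≤ ε + C * η := by positivity
    calc |v s - u (m s) - h' s * u (m s)| * φ (m s) ≤ (ε + C * η) * φ (m s) :=
          mul_le_mul_of_nonneg_right q1 (φ0 _)
      _ ≤ (ε + C * η) * (2 * (1 + h' s)) * φ (m s) := by
          refine mul_le_mul_of_nonneg_right ?_ (φ0 _)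
          nlinarith
      _ = _ := by ring
  have hfinal : ‖∫ s in Set.Icc A B, (v s * φ (m s) - |1 + h' s| • (u (m s) * φ (m s)))‖ ≤
      ∫ s in Set.Icc A B, 2 * (ε + C * η) * (|1 + h' s| • φ (m s)) := by
    refine norm_integral_le_of_norm_le (i3.const_mul _) ?_
    filter_upwards [ae_restrict_mem measurableSet_Icc] with s hs
    exact hb s hs
  rw [Real.norm_eq_abs, integral_const_mul, ← e3] at hfinal
  refine hfinal.trans (mul_le_mul_of_nonneg_left ?_ (by positivity))
  exact setIntegral_mono_set f1 (Eventually.of_forall φ0) (LE.le.eventuallyLE him2)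

/-- **Small changes of the arguments.** -/
theorem perturb {Φ : ℝ × ℝ → ℝ} (hΦ : Measurable Φ) (Φ0 : ∀ z, 0 ≤ Φ z) (Φ1 : ∀ z, Φ z ≤ 1)
    {χ : ℝ × ℝ → ℝ} {x0 x1 s0 s1 C : ℝ} (h : Wt χ x0 x1 s0 s1 C)
    {c m h' : ℝ → ℝ} {A B ε η : ℝ} (hAB : A ≤ B) (hc : Measurable c) (hm : Measurable m)
    (hcb : ∀ s ∈ Set.Icc A B, |c s| ≤ η)
    (hd : ∀ s ∈ Set.Icc A B, HasDerivAt m (1 + h' s) s)
    (hh : ∀ s ∈ Set.Icc A B, |h' s| ≤ η) (hms : ∀ s ∈ Set.Icc A B, |m s - s| ≤ η)
    (hη : η ≤ 1 / 2) (hηx : η ≤ x0 / 2) (hA : A + η ≤ s0) (hB : s1 + η ≤ B)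
    (hu : ∀ z v : ℝ × ℝ, |v.1| ≤ η → |v.2| ≤ η → |χ (z + v) - χ z| ≤ ε) :
    |(∫ z : ℝ × ℝ, χ z * Φ (z.1 + c z.2, m z.2)) - ∫ z, χ z * Φ z| ≤
      4 * (ε + C * η) * ∫ z in Bx (x0 / 2) (x1 + 1) (A - 1) (B + 1), Φ z := by
  have hAm : A ∈ Set.Icc A B := ⟨le_rfl, hAB⟩
  have hη0 : 0 ≤ η := (abs_nonneg _).trans (hh A hAm)
  have hε0 : 0 ≤ ε := (abs_nonneg _).trans (hu 0 0 (by simpa using hη0) (by simpa using hη0))
  have hC0 := h.C_nonneg
  have hΦabs : ∀ z, |Φ z| ≤ 1 := fun z => by rw [abs_of_nonneg (Φ0 z)]; exact Φ1 z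
  have hsub : Set.Ioc s0 s1 ⊆ Set.Icc A B := fun t ht => ⟨by linarith [ht.1], by linarith [ht.2]⟩
  -- the two functions
  set f1 : ℝ × ℝ → ℝ := fun z => χ z * Φ (z.1 + c z.2, m z.2) with hf1
  set g1 : ℝ × ℝ → ℝ := fun z => χ (z.1 - c z.2, z.2) * Φ (z.1, m z.2) with hg1
  have i1 : Integrable f1 volume := h.int_mul
    (hΦ.comp ((measurable_fst.add (hc.comp measurable_snd)).prodMk (hm.comp measurable_snd)))
    (fun z => hΦabs _)
  have i2 : Integrable g1 volume := by
    refine int_of_supp (x0 := x0 / 2) (x1 := x1 + 1) (y0 := s0) (y1 := s1) (C := C) ?_ ?_ ?_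
    · exact (h.meas.comp ((measurable_fst.sub (hc.comp measurable_snd)).prodMk measurable_snd)).mul
        (hΦ.comp (measurable_fst.prodMk (hm.comp measurable_snd)))
    · intro z
      rw [hg1]
      simp only
      rw [abs_mul]
      have := mul_le_mul (h.bd (z.1 - c z.2, z.2)) (hΦabs (z.1, m z.2)) (abs_nonneg _) hC0
      linarith
    · intro z hz
      rw [hg1]
      simp only
      rw [h.supp, zero_mul]
      intro hz'
      obtain ⟨⟨a1, a2⟩, a3, a4⟩ := hz'
      simp only at a1 a2 a3 a4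
      have := abs_le.1 (hcb z.2 (hsub ⟨a3, a4⟩))
      exact hz ⟨⟨by linarith, by linarith⟩, a3, a4⟩
  have i3 : Integrable (fun z => χ z * Φ z) volume := h.int_mul hΦ hΦabs
  have e1 : ∫ z, f1 z = ∫ x, ∫ s, g1 (x, s) := by
    rw [Measure.volume_eq_prod] at i1 i2
    have k1 : ∫ z, f1 z = ∫ s, ∫ x, f1 (x, s) := by
      rw [Measure.volume_eq_prod]
      exact integral_prod_symm f1 i1
    have k2 : ∫ z, g1 z = ∫ s, ∫ x, g1 (x, s) := by
      rw [Measure.volume_eq_prod]
      exact integral_prod_symm g1 i2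
    have k3 : ∫ z, g1 z = ∫ x, ∫ s, g1 (x, s) := by
      rw [Measure.volume_eq_prod]
      exact integral_prod g1 i2
    rw [k1, ← k3, k2]
    refine integral_congr_ae (Eventually.of_forall fun s => ?_)
    simp only
    rw [← integral_add_right_eq_self (μ := (volume : Measure ℝ)) (fun x => g1 (x, s)) (c s)]
    refine integral_congr_ae (Eventually.of_forall fun x => ?_)
    simp only [hf1, hg1, add_sub_cancel_right]
  have e2 : ∫ z, χ z * Φ z = ∫ x, ∫ t, χ (x, t) * Φ (x, t) := by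
    rw [Measure.volume_eq_prod] at i3 ⊢
    exact integral_prod _ i3
  have i2' : Integrable (fun x => ∫ s, g1 (x, s)) volume := by
    rw [Measure.volume_eq_prod] at i2
    exact i2.integral_prod_left
  have i3' : Integrable (fun x => ∫ s, χ (x, s) * Φ (x, s)) volume := by
    rw [Measure.volume_eq_prod] at i3
    exact i3.integral_prod_left
  rw [e1, e2, ← integral_sub i2' i3']
  set K := 2 * (ε + C * η) with hK
  have hK0 : 0 ≤ K := by positivity
  -- the bound
  set bd : ℝ → ℝ := (Set.Ioc (x0 / 2) (x1 + 1)).indicator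
    (fun x => K * ∫ t in Set.Ioc (A - 1) (B + 1), Φ (x, t)) with hbd
  have hΦi : Integrable Φ (((volume : Measure ℝ).prod (volume : Measure ℝ)).restrict
      (Set.Ioc (x0 / 2) (x1 + 1) ×ˢ Set.Ioc (A - 1) (B + 1))) := by
    rw [← Measure.volume_eq_prod]
    change Integrable Φ (volume.restrict (Bx _ _ _ _))
    exact integrable_abs hΦ hΦabs
  have hbi : Integrable bd volume := by
    rw [hbd, integrable_indicator_iff measurableSet_Ioc]
    rw [← Measure.prod_restrict] at hΦi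
    exact (hΦi.integral_prod_left).const_mul K
  have hpt : ∀ x, ‖(∫ s, g1 (x, s)) - ∫ s, χ (x, s) * Φ (x, s)‖ ≤ bd x := by
    intro x
    by_cases hx : x ∈ Set.Ioc (x0 / 2) (x1 + 1)
    · rw [hbd, Set.indicator_of_mem hx, Real.norm_eq_abs]
      exact one_dim (u := fun t => χ (x, t)) (v := fun s => χ (x - c s, s)) (φ := fun t => Φ (x, t))
        hAB (h.meas.comp (by fun_prop)) (h.meas.comp ((measurable_const.sub hc).prodMk measurable_id))
        (hΦ.comp (by fun_prop)) hm (fun t => Φ0 _) (fun t => Φ1 _) (fun t => h.bd _) (fun t => h.bd _)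
        (fun t ht => h.supp _ fun h' => ht h'.2) (fun t ht => h.supp _ fun h' => ht h'.2) hd hh hms hη
        hA hB (fun s hs => by
          have h5 := hu (x - c s, s) (c s, m s - s) (hcb s hs) (hms s hs)
          have e : ((x - c s, s) : ℝ × ℝ) + (c s, m s - s) = (x, m s) := by
            ext <;> simp
          rw [e] at h5
          rw [abs_sub_comm]
          exact h5)
    · rw [hbd, Set.indicator_of_notMem hx]
      have z1 : ∀ s, g1 (x, s) = 0 := by
        intro s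
        rw [hg1]
        simp only
        rw [h.supp, zero_mul]
        intro hz'
        obtain ⟨⟨a1, a2⟩, a3, a4⟩ := hz'
        simp only at a1 a2 a3 a4
        have := abs_le.1 (hcb s (hsub ⟨a3, a4⟩))
        exact hx ⟨by linarith, by linarith⟩
      have z2 : ∀ s, χ (x, s) * Φ (x, s) = 0 := by
        intro s
        rw [h.supp, zero_mul]
        intro hz'
        obtain ⟨⟨a1, a2⟩, a3, a4⟩ := hz'
        simp only at a1 a2 a3 a4
        exact hx ⟨by linarith, by linarith⟩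
      simp only [z1, z2]
      simp
  have hfin := norm_integral_le_of_norm_le hbi (Eventually.of_forall hpt)
  rw [Real.norm_eq_abs, hbd, integral_indicator measurableSet_Ioc, integral_const_mul] at hfin
  refine hfin.trans ?_
  have e4 : ∫ x in Set.Ioc (x0 / 2) (x1 + 1), ∫ t in Set.Ioc (A - 1) (B + 1), Φ (x, t) =
      ∫ z in Bx (x0 / 2) (x1 + 1) (A - 1) (B + 1), Φ z := by
    unfold Bx
    rw [Measure.volume_eq_prod, setIntegral_prod]
    exact hΦi
  rw [e4]
  have : 0 ≤ ∫ z in Bx (x0 / 2) (x1 + 1) (A - 1) (B + 1), Φ z := integral_nonneg fun z => Φ0 z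
  nlinarith

end Pool.Agent.K3h13.PCO
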