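import Pool.Agent.K3h13.PCO.PC

set_option autoImplicit false

/-!
The family `(a ^ p - b ^ p) / (a - b)` in the coordinates `x = log a`, `s = - log (1 - b / a)`.
-/

namespace Pool.Agent.K3h13.PCO

open Finset Filter Topology MeasureTheory
open Pool.Agent.Y122.PC
open Pool.Agent.H305R2 (ff ff_nonneg ff_le_one measurable_ff bounds integrableOn_ff)

/-- the ratio `b / a` -/
noncomputable def rr (s : ℝ) : ℝ := 1 - Real.exp (-s)

/-- the correction of the logarithm -/
noncomputable def EE (p : ℕ) (s : ℝ) : ℝ := Real.log (1 - (rr s) ^ p)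

/-- its derivative -/
noncomputable def dE (p : ℕ) (s : ℝ) : ℝ :=
  -(p * (rr s) ^ (p - 1) * Real.exp (-s)) / (1 - (rr s) ^ p)

lemma measurable_rr : Measurable rr := by unfold rr; fun_prop

lemma measurable_EE (p : ℕ) : Measurable (EE p) :=
  Real.measurable_log.comp (measurable_const.sub (measurable_rr.pow_const p))

lemma rr_bound {A B : ℝ} (hA : -Real.log 2 < A) :
    ∃ κ : ℝ, 1 / 2 ≤ κ ∧ κ < 1 ∧ ∀ s ∈ Set.Icc A B, |rr s| ≤ κ := by
  have h1 : Real.exp (-A) < 2 := by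
    have : Real.exp (-A) < Real.exp (Real.log 2) := Real.exp_lt_exp.2 (by linarith)
    rwa [Real.exp_log two_pos] at this
  refine ⟨max (1 / 2) (max (Real.exp (-A) - 1) (1 - Real.exp (-B))), le_max_left _ _,
    max_lt (by norm_num) (max_lt (by linarith) (by linarith [Real.exp_pos (-B)])), fun s hs => ?_⟩
  have h2 : Real.exp (-s) ≤ Real.exp (-A) := Real.exp_le_exp.2 (by linarith [hs.1])
  have h3 : Real.exp (-B) ≤ Real.exp (-s) := Real.exp_le_exp.2 (by linarith [hs.2])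
  have m1 : Real.exp (-A) - 1 ≤ max (1 / 2) (max (Real.exp (-A) - 1) (1 - Real.exp (-B))) :=
    (le_max_left _ _).trans (le_max_right _ _)
  have m2 : 1 - Real.exp (-B) ≤ max (1 / 2) (max (Real.exp (-A) - 1) (1 - Real.exp (-B))) :=
    (le_max_right _ _).trans (le_max_right _ _)
  unfold rr
  rw [abs_le]
  constructor <;> linarith

lemma EE_bounds {A B : ℝ} (hA : -Real.log 2 < A) :
    ∃ κ : ℝ, 0 < κ ∧ κ < 1 ∧ ∀ᶠ p : ℕ in atTop, ∀ s ∈ Set.Icc A B,
      |EE p s| ≤ 8 * p * κ ^ p ∧ |dE p s| ≤ 8 * p * κ ^ p ∧ HasDerivAt (EE p) (dE p s) s := by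
  obtain ⟨κ, hκ0, hκ1, hκ⟩ := rr_bound (B := B) hA
  have hκp : 0 < κ := by linarith
  refine ⟨κ, hκp, hκ1, ?_⟩
  have ht : Tendsto (fun p : ℕ => κ ^ p) atTop (𝓝 0) := tendsto_pow_atTop_nhds_zero_of_lt_one hκp.le hκ1
  filter_upwards [ht.eventually_lt_const (show (0 : ℝ) < 1 / 2 by norm_num), eventually_ge_atTop 1]
    with p hp hp1 s hs
  have hp1' : (1 : ℝ) ≤ p := by exact_mod_cast hp1
  have hr := hκ s hs
  have hrp : |rr s ^ p| ≤ κ ^ p := by
    rw [abs_pow]; exact pow_le_pow_left₀ (abs_nonneg _) hr p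
  have hrp' := abs_le.1 hrp
  have hden : 1 / 2 ≤ 1 - rr s ^ p := by linarith
  have hden0 : 0 < 1 - rr s ^ p := by linarith
  have hκpp : 0 < κ ^ p := by positivity
  refine ⟨?_, ?_, ?_⟩
  · have hlog1 : Real.log (1 - rr s ^ p) ≤ κ ^ p := by
      have := Real.log_le_sub_one_of_pos hden0
      linarith
    have hlog2 : -(2 * κ ^ p) ≤ Real.log (1 - rr s ^ p) := by
      have h1 := Real.one_sub_inv_le_log_of_pos hden0
      have h2 : (1 - rr s ^ p)⁻¹ ≤ 1 + 2 * κ ^ p := by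
        rw [inv_le_iff_one_le_mul₀ hden0]
        nlinarith
      linarith
    unfold EE
    rw [abs_le]
    constructor <;> nlinarith
  · unfold dE
    rw [abs_div, abs_neg, abs_of_pos hden0, div_le_iff₀ hden0, abs_mul, abs_mul, Nat.abs_cast, abs_pow,
      abs_of_pos (Real.exp_pos _)]
    have h1 : Real.exp (-s) ≤ 2 := by
      have : Real.exp (-s) ≤ Real.exp (Real.log 2) := Real.exp_le_exp.2 (by linarith [hs.1])
      rwa [Real.exp_log two_pos] at this
    have h2 : |rr s| ^ (p - 1) ≤ 2 * κ ^ p := by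
      have h3 : |rr s| ^ (p - 1) ≤ κ ^ (p - 1) := pow_le_pow_left₀ (abs_nonneg _) hr _
      have h4 : κ ^ p = κ ^ (p - 1) * κ := by
        rw [← pow_succ]; congr 1; omega
      have h5 : 0 < κ ^ (p - 1) := by positivity
      rw [h4]
      nlinarith
    calc (p : ℝ) * |rr s| ^ (p - 1) * Real.exp (-s) ≤ p * (2 * κ ^ p) * 2 := by gcongr
      _ = 8 * p * κ ^ p * (1 / 2) := by ring
      _ ≤ 8 * p * κ ^ p * (1 - rr s ^ p) := by gcongr
  · have h1 : HasDerivAt rr (Real.exp (-s)) s := by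
      have h0 := ((hasDerivAt_neg s).exp).const_sub 1
      have e : -(Real.exp (-s) * (-1 : ℝ)) = Real.exp (-s) := by ring
      rw [e] at h0
      exact h0
    exact ((h1.pow p).const_sub 1).log hden0.ne'

/-- the shift of `x` -/
noncomputable def cc (p q : ℕ) (s : ℝ) : ℝ := (EE q s - EE p s) / ((q : ℝ) - p)

/-- the new second coordinate -/
noncomputable def mm (p q : ℕ) (s : ℝ) : ℝ :=
  s + ((q - 1) * EE p s - (p - 1) * EE q s) / ((q : ℝ) - p)

/-- the derivative of the change of the second coordinate -/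
noncomputable def dh (p q : ℕ) (s : ℝ) : ℝ :=
  ((q - 1) * dE p s - (p - 1) * dE q s) / ((q : ℝ) - p)

lemma measurable_cc (p q : ℕ) : Measurable (cc p q) :=
  ((measurable_EE q).sub (measurable_EE p)).div_const _

lemma measurable_mm (p q : ℕ) : Measurable (mm p q) :=
  measurable_id.add ((((measurable_EE p).const_mul _).sub ((measurable_EE q).const_mul _)).div_const _)

/-- the product of the indicators in the new coordinates, without the correction -/
noncomputable def Ph (p q : ℕ) (z : ℝ × ℝ) : ℝ := F p q (z.1, z.2 - z.1)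

/-- the product of the indicators in the new coordinates -/
noncomputable def Pt (p q : ℕ) (z : ℝ × ℝ) : ℝ :=
  ff p (p * z.1 + (z.2 - z.1) + EE p z.2) * ff q (q * z.1 + (z.2 - z.1) + EE q z.2)

lemma measurable_Ph (p q : ℕ) : Measurable (Ph p q) :=
  (measurable_F p q).comp (measurable_fst.prodMk (measurable_snd.sub measurable_fst))

lemma measurable_Pt (p q : ℕ) : Measurable (Pt p q) := by
  refine ((measurable_ff p).comp ?_).mul ((measurable_ff q).comp ?_)
  · exact ((measurable_fst.const_mul _).add (measurable_snd.sub measurable_fst)).add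
      ((measurable_EE p).comp measurable_snd)
  · exact ((measurable_fst.const_mul _).add (measurable_snd.sub measurable_fst)).add
      ((measurable_EE q).comp measurable_snd)

lemma Pt_eq {p q : ℕ} (hpq : p ≠ q) (z : ℝ × ℝ) : Pt p q z = Ph p q (z.1 + cc p q z.2, mm p q z.2) := by
  have h : (q : ℝ) - p ≠ 0 := sub_ne_zero.2 (by exact_mod_cast hpq.symm)
  unfold Pt Ph F cc mm
  simp only
  congr 2 <;> field_simp <;> ring

lemma small {A B : ℝ} (hA : -Real.log 2 < A) {R η : ℝ} (hR : 0 < R) (hη : 0 < η) :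
    ∃ N : ℕ, ∀ p q : ℕ, N ≤ p → N ≤ q → p ≠ q → ((p : ℝ) + q) ≤ R * p → ((p : ℝ) + q) ≤ R * q →
      ∀ s ∈ Set.Icc A B, |cc p q s| ≤ η ∧ |mm p q s - s| ≤ η ∧ |dh p q s| ≤ η ∧
        HasDerivAt (mm p q) (1 + dh p q s) s := by
  obtain ⟨κ, hκ0, hκ1, hev⟩ := EE_bounds (B := B) hA
  have ht : Tendsto (fun p : ℕ => (p : ℝ) ^ 2 * κ ^ p) atTop (𝓝 0) :=
    tendsto_pow_const_mul_const_pow_of_abs_lt_one 2 (by rw [abs_of_pos hκ0]; exact hκ1)
  obtain ⟨N, hN⟩ := eventually_atTop.1 (hev.and (ht.eventually_lt_const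
    (show (0 : ℝ) < η / (16 * (R + 1)) by positivity)))
  refine ⟨max N 1, fun p q hp hq hne h1 h2 s hs => ?_⟩
  obtain ⟨ep, tp⟩ := hN p ((le_max_left _ _).trans hp)
  obtain ⟨eq, tq⟩ := hN q ((le_max_left _ _).trans hq)
  obtain ⟨ep1, ep2, ep3⟩ := ep s hs
  obtain ⟨eq1, eq2, eq3⟩ := eq s hs
  have hp1 : (1 : ℝ) ≤ p := by exact_mod_cast (le_max_right _ _).trans hp
  have hq1 : (1 : ℝ) ≤ q := by exact_mod_cast (le_max_right _ _).trans hq
  have hne' : (q : ℝ) - p ≠ 0 := sub_ne_zero.2 (by exact_mod_cast hne.symm)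
  have hh1 : 1 ≤ |(q : ℝ) - p| := by
    have : (1 : ℤ) ≤ |(q : ℤ) - p| := Int.one_le_abs (sub_ne_zero.2 (by exact_mod_cast hne.symm))
    exact_mod_cast this
  have hh0 : 0 < |(q : ℝ) - p| := by linarith
  rw [lt_div_iff₀ (by positivity)] at tp tq
  set P := (p : ℝ) ^ 2 * κ ^ p with hP
  set Q := (q : ℝ) ^ 2 * κ ^ q with hQ
  have hP0 : 0 < P := by positivity
  have hQ0 : 0 < Q := by positivity
  have hR1 : 1 ≤ R := by nlinarith
  -- the four products
  have b1 : ∀ u v : ℝ, |u| ≤ 8 * p * κ ^ p → |v| ≤ 8 * q * κ ^ q →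
      |((q - 1) * u - (p - 1) * v) / ((q : ℝ) - p)| ≤ η := by
    intro u v hu hv
    rw [abs_div, div_le_iff₀ hh0]
    have c1 : |((q : ℝ) - 1) * u| ≤ 8 * R * P := by
      rw [abs_mul, abs_of_nonneg (by linarith)]
      calc ((q : ℝ) - 1) * |u| ≤ (R * p) * (8 * p * κ ^ p) := by
            refine mul_le_mul (by linarith) hu (abs_nonneg _) (by positivity)
        _ = 8 * R * P := by rw [hP]; ring
    have c2 : |((p : ℝ) - 1) * v| ≤ 8 * R * Q := by
      rw [abs_mul, abs_of_nonneg (by linarith)]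
      calc ((p : ℝ) - 1) * |v| ≤ (R * q) * (8 * q * κ ^ q) := by
            refine mul_le_mul (by linarith) hv (abs_nonneg _) (by positivity)
        _ = 8 * R * Q := by rw [hQ]; ring
    have c3 := abs_sub (((q : ℝ) - 1) * u) (((p : ℝ) - 1) * v)
    have c4 : η ≤ η * |(q : ℝ) - p| := by nlinarith
    nlinarith
  refine ⟨?_, ?_, ?_, ?_⟩
  · unfold cc
    rw [abs_div, div_le_iff₀ hh0]
    have c1 : 8 * p * κ ^ p ≤ 8 * P := by
      rw [hP]
      have : 0 < κ ^ p := by positivity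
      nlinarith [mul_le_mul_of_nonneg_right hp1 (show 0 ≤ (p : ℝ) * κ ^ p by positivity)]
    have c2 : 8 * q * κ ^ q ≤ 8 * Q := by
      rw [hQ]
      have : 0 < κ ^ q := by positivity
      nlinarith [mul_le_mul_of_nonneg_right hq1 (show 0 ≤ (q : ℝ) * κ ^ q by positivity)]
    have c3 := abs_sub (EE q s) (EE p s)
    have c4 : η ≤ η * |(q : ℝ) - p| := by nlinarith
    nlinarith
  · unfold mm
    rw [add_sub_cancel_left]
    exact b1 _ _ ep1 eq1
  · exact b1 _ _ ep2 eq2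
  · have := (hasDerivAt_id s).add (((ep3.const_mul ((q : ℝ) - 1)).sub (eq3.const_mul ((p : ℝ) - 1))).div_const
      ((q : ℝ) - p))
    exact this

end Pool.Agent.K3h13.PCO
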