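import Pool.Agent.K3h13.PCO.PD

set_option autoImplicit false

/-!
The correlations of the family `(a ^ p - b ^ p) / (a - b)`.
-/

namespace Pool.Agent.K3h13.PCO

open Finset Filter Topology MeasureTheory
open Pool.Agent.Y122.PC
open Pool.Agent.H305R2 (ff ff_nonneg ff_le_one measurable_ff bounds integrableOn_ff)

lemma mp_shear : MeasurePreserving (fun z : ℝ × ℝ => (z.1, z.1 + z.2)) volume volume := by
  rw [Measure.volume_eq_prod]
  exact measurePreserving_prod_add (volume : Measure ℝ) (volume : Measure ℝ)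

lemma me_shear : MeasurableEmbedding (fun z : ℝ × ℝ => (z.1, z.1 + z.2)) :=
  (MeasurableEquiv.shearAddRight ℝ).measurableEmbedding

lemma shear_int (g : ℝ × ℝ → ℝ) : ∫ z : ℝ × ℝ, g (z.1, z.1 + z.2) = ∫ z, g z :=
  mp_shear.integral_comp me_shear g

lemma Wt.shear {χ : ℝ × ℝ → ℝ} {x0 x1 s0 s1 C : ℝ} (h : Wt χ x0 x1 s0 s1 C) :
    Wt (fun z => χ (z.1, z.1 + z.2)) x0 x1 (s0 - x1) (s1 - x0) C := by
  refine ⟨h.meas.comp (by fun_prop), fun z => h.bd _, fun z hz => h.supp _ fun hz' => hz ?_,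
    fun ε hε => ?_⟩
  · obtain ⟨⟨a1, a2⟩, a3, a4⟩ := hz'
    simp only at a1 a2 a3 a4
    refine ⟨⟨a1, a2⟩, ?_, ?_⟩ <;> linarith
  · obtain ⟨θ, hθ, hu⟩ := h.unif ε hε
    refine ⟨θ / 2, by positivity, fun z v h1 h2 => ?_⟩
    have h3 := hu (z.1, z.1 + z.2) (v.1, v.1 + v.2) (by simp only; linarith)
      (by simp only; exact (abs_add_le _ _).trans (by linarith))
    have e : ((z.1, z.1 + z.2) : ℝ × ℝ) + (v.1, v.1 + v.2) = ((z + v).1, (z + v).1 + (z + v).2) := by
      ext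
      · simp
      · simp only [Prod.snd_add, Prod.fst_add]; ring
    rw [e] at h3
    exact h3

lemma Ph_shear (p q : ℕ) (z : ℝ × ℝ) : Ph p q (z.1, z.1 + z.2) = F p q z := by
  unfold Ph
  simp

lemma box_le (p q : ℕ) (a1 b1 a2 b2 : ℝ) :
    ∫ z in Bx a1 b1 a2 b2, Ph p q z ≤ I a1 b1 (a2 - b1) (b2 - a1) p q := by
  have h := mp_shear.setIntegral_preimage_emb me_shear (Ph p q) (Bx a1 b1 a2 b2)
  rw [← h]
  simp only [Ph_shear]
  unfold I
  refine setIntegral_mono_set ?_ ?_ ?_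
  · exact integrable_abs (C := 1) (measurable_F p q) (F_abs p q)
  · exact Eventually.of_forall fun z => F_nonneg p q z
  · refine LE.le.eventuallyLE ?_
    rintro z ⟨⟨c1, c2⟩, c3, c4⟩
    simp only at c1 c2 c3 c4
    refine ⟨⟨c1, c2⟩, ?_, ?_⟩ <;> linarith

lemma Ph_nonneg (p q : ℕ) (z : ℝ × ℝ) : 0 ≤ Ph p q z := F_nonneg _ _ _

lemma Ph_le_one (p q : ℕ) (z : ℝ × ℝ) : Ph p q z ≤ 1 := F_le_one _ _ _

/-- the correction changes the correlations by little -/
lemma diff_small {χ : ℝ × ℝ → ℝ} {x0 x1 s0 s1 C : ℝ} (h : Wt χ x0 x1 s0 s1 C) (hx0 : 0 < x0)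
    (hs0 : -Real.log 2 < s0) {R ε : ℝ} (hR : 0 < R) (hε : 0 < ε) :
    ∃ N : ℕ, ∀ p q : ℕ, N ≤ p → N ≤ q → p ≠ q → ((p : ℝ) + q) ≤ R * p → ((p : ℝ) + q) ≤ R * q →
      |(∫ z, χ z * Pt p q z) - ∫ z, χ z * Ph p q z| ≤ ε * (w p * w q) := by
  set A := (s0 - Real.log 2) / 2 with hAdef
  set B := max s0 s1 + 1 with hBdef
  have hlog2 : 0 < Real.log 2 := Real.log_pos (by norm_num)
  have hA : -Real.log 2 < A := by rw [hAdef]; linarith
  have hAs : A < s0 := by rw [hAdef]; linarith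
  have hsB : s1 + 1 ≤ B := by rw [hBdef]; linarith [le_max_right s0 s1]
  have hAB : A ≤ B := by rw [hBdef]; linarith [le_max_left s0 s1]
  obtain ⟨K, hK, N1, hN1⟩ := near (x0 := x0 / 2) (x1 + 1) (A - 1 - (x1 + 1)) (B + 1 - x0 / 2)
    (by positivity) hR
  obtain ⟨θ, hθ, hu⟩ := h.unif (ε / (8 * K)) (by positivity)
  have hC := h.C_nonneg
  obtain ⟨η, hη0, hη1, hη2, hη3, hη4, hη5⟩ : ∃ η : ℝ, 0 < η ∧ η ≤ 1 / 2 ∧ η ≤ x0 / 2 ∧ η ≤ s0 - A ∧
      η ≤ θ ∧ η ≤ ε / (8 * K * (C + 1)) := by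
    refine ⟨min (min (min (1 / 2) (x0 / 2)) (min (s0 - A) θ)) (ε / (8 * K * (C + 1))), ?_, ?_, ?_, ?_, ?_, ?_⟩
    · refine lt_min (lt_min (lt_min (by norm_num) (by positivity)) (lt_min (by linarith) hθ)) (by positivity)
    · exact (min_le_left _ _).trans ((min_le_left _ _).trans (min_le_left _ _))
    · exact (min_le_left _ _).trans ((min_le_left _ _).trans (min_le_right _ _))
    · exact (min_le_left _ _).trans ((min_le_right _ _).trans (min_le_left _ _))
    · exact (min_le_left _ _).trans ((min_le_right _ _).trans (min_le_right _ _))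
    · exact min_le_right _ _
  obtain ⟨N2, hN2⟩ := small (B := B) hA hR hη0
  refine ⟨max N1 N2, fun p q hp hq hne h1 h2 => ?_⟩
  have k1 := hN1 p q ((le_max_left _ _).trans hp) ((le_max_left _ _).trans hq) hne h1 h2
  change I _ _ _ _ p q ≤ K * (w p * w q) at k1
  have k2 := hN2 p q ((le_max_right _ _).trans hp) ((le_max_right _ _).trans hq) hne h1 h2
  have k3 := perturb (measurable_Ph p q) (Ph_nonneg p q) (Ph_le_one p q) h hAB (measurable_cc p q)
    (measurable_mm p q) (h' := dh p q) (η := η) (ε := ε / (8 * K)) (fun s hs => (k2 s hs).1)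
    (fun s hs => (k2 s hs).2.2.2) (fun s hs => (k2 s hs).2.2.1) (fun s hs => (k2 s hs).2.1) hη1 hη2
    (by linarith) (by linarith) (fun z v h1 h2 => hu z v (h1.trans hη4) (h2.trans hη4))
  simp only [← Pt_eq hne] at k3
  have k4 := box_le p q (x0 / 2) (x1 + 1) (A - 1) (B + 1)
  have k5 : 0 ≤ ∫ z in Bx (x0 / 2) (x1 + 1) (A - 1) (B + 1), Ph p q z :=
    integral_nonneg fun z => Ph_nonneg p q z
  have hww : 0 ≤ w p * w q := mul_nonneg (w_nonneg p) (w_nonneg q)
  refine k3.trans ?_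
  have k6 : ε / (8 * K) + C * η ≤ ε / (4 * K) := by
    have : C * η ≤ (C + 1) * (ε / (8 * K * (C + 1))) := by
      refine mul_le_mul (by linarith) hη5 hη0.le (by linarith)
    have e : (C + 1) * (ε / (8 * K * (C + 1))) = ε / (8 * K) := by
      have : C + 1 ≠ 0 := by positivity
      field_simp
    have e2 : ε / (4 * K) = ε / (8 * K) + ε / (8 * K) := by field_simp; ring
    rw [e2]
    linarith
  calc 4 * (ε / (8 * K) + C * η) * ∫ z in Bx (x0 / 2) (x1 + 1) (A - 1) (B + 1), Ph p q z ≤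
      4 * (ε / (4 * K)) * (K * (w p * w q)) := by
        refine mul_le_mul ?_ (k4.trans k1) k5 (by positivity)
        linarith
    _ = ε * (w p * w q) := by field_simp

/-- **The sum of the correlations.** -/
theorem sum_Pt {χ : ℝ × ℝ → ℝ} {x0 x1 s0 s1 C : ℝ} (h : Wt χ x0 x1 s0 s1 C) (hx0 : 0 < x0)
    (hs0 : -Real.log 2 < s0) {a b c d : ℝ}
    (ha : 0 < a) (hab : a < b) (hc : 0 < c) (hcd : c < d) :
    Tendsto (fun z : ℝ => ∑ p ∈ Pr (a * z) (b * z), ∑ q ∈ Pr (c * z) (d * z),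
      |(if p ≠ q then ∫ u, χ u * Pt p q u else 0) -
        (∫ u, χ u * ((eg / u.1) * (eg / u.1))) * (w p * w q)|) atTop (𝓝 0) := by
  have e1 : ∀ p q : ℕ, ∫ z, χ z * Ph p q z = ∫ z : ℝ × ℝ, χ (z.1, z.1 + z.2) * F p q z := by
    intro p q
    rw [← shear_int]
    simp only [Ph_shear]
  have e2 : ∫ z, χ z * ((eg / z.1) * (eg / z.1)) =
      ∫ z : ℝ × ℝ, χ (z.1, z.1 + z.2) * ((eg / z.1) * (eg / z.1)) := by
    rw [← shear_int]
  refine sum_abs (J := fun p q => ∫ u, χ u * Pt p q u) ha hab hc hcd ?_ ?_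
  · intro R hR
    obtain ⟨K, hK, N1, hN1⟩ := nearW h.shear hx0 hR
    obtain ⟨N2, hN2⟩ := diff_small h hx0 hs0 hR one_pos
    refine ⟨K + 1, by positivity, max N1 N2, fun p q hp hq hne h1 h2 => ?_⟩
    have k1 := hN1 p q ((le_max_left _ _).trans hp) ((le_max_left _ _).trans hq) hne h1 h2
    have k2 := hN2 p q ((le_max_right _ _).trans hp) ((le_max_right _ _).trans hq) hne h1 h2
    rw [← e1] at k1
    have k3 := abs_sub_abs_le_abs_sub (∫ z, χ z * Pt p q z) (∫ z, χ z * Ph p q z)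
    rw [add_mul]
    linarith
  · intro R ε δ hR hε hδ
    obtain ⟨N1, hN1⟩ := farW h.shear hx0 hR (half_pos hε) hδ
    obtain ⟨N2, hN2⟩ := diff_small h hx0 hs0 hR (half_pos hε)
    refine ⟨max (max N1 N2) 3, fun p q hp hq h1 h2 h3 => ?_⟩
    have hp3 : (3 : ℝ) ≤ p := by exact_mod_cast (le_max_right _ _).trans hp
    have hq3 : (3 : ℝ) ≤ q := by exact_mod_cast (le_max_right _ _).trans hq
    have hne : p ≠ q := by
      rintro rfl
      simp at h3
      nlinarith
    have k1 := hN1 p q ((le_max_left _ _).trans ((le_max_left _ _).trans hp))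
      ((le_max_left _ _).trans ((le_max_left _ _).trans hq)) h1 h2 h3
    have k2 := hN2 p q ((le_max_right _ _).trans ((le_max_left _ _).trans hp))
      ((le_max_right _ _).trans ((le_max_left _ _).trans hq)) hne h1 h2
    rw [← e1, ← e2] at k1
    have hlp : 0 < Real.log p := Real.log_pos (by linarith)
    have hlq : 0 < Real.log q := Real.log_pos (by linarith)
    have hW : 0 < ((p : ℝ) / Real.log p) * (q / Real.log q) := by positivity
    have hww : w p * w q * (((p : ℝ) / Real.log p) * (q / Real.log q)) = 1 := by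
      unfold w; field_simp
    have k3 := mul_le_mul_of_nonneg_right k2 hW.le
    rw [mul_assoc (ε / 2), hww, mul_one] at k3
    have k4 : |(∫ z, χ z * Pt p q z) - ∫ z, χ z * Ph p q z| *
        (((p : ℝ) / Real.log p) * (q / Real.log q)) =
        |(∫ z, χ z * Pt p q z) * (((p : ℝ) / Real.log p) * (q / Real.log q)) -
        (∫ z, χ z * Ph p q z) * (((p : ℝ) / Real.log p) * (q / Real.log q))| := by
      rw [← sub_mul, abs_mul, abs_of_pos hW]
    rw [k4] at k3
    have k5 := abs_sub_le ((∫ z, χ z * Pt p q z) * ((p / Real.log p) * (q / Real.log q)))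
      ((∫ z, χ z * Ph p q z) * ((p / Real.log p) * (q / Real.log q)))
      (∫ z, χ z * ((eg / z.1) * (eg / z.1)))
    linarith

end Pool.Agent.K3h13.PCO
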