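import Pool.Agent.K3h13.PCO.PE
import Pool.Agent.H447R2.ML.P9

set_option autoImplicit false

/-!
The coordinates `(a, b)`.
-/

namespace Pool.Agent.K3h13.PCO

open Finset Filter Topology MeasureTheory
open Pool.Agent.Y122.PC
open Pool.Agent.H305R2 (ff ff_nonneg ff_le_one measurable_ff bounds integrableOn_ff roughPart)

/-- the indicator of the event that the rough part is prime -/
noncomputable def gg (p : ℕ) (z : ℝ × ℝ) : ℝ :=
  if (roughPart p ⌊(z.1 ^ p - z.2 ^ p) / (z.1 - z.2)⌋₊).Prime then 1 else 0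

lemma measurable_gg (p : ℕ) : Measurable (gg p) := by
  have h1 : Measurable (fun z : ℝ × ℝ => ⌊(z.1 ^ p - z.2 ^ p) / (z.1 - z.2)⌋₊) :=
    Nat.measurable_floor.comp (((measurable_fst.pow_const p).sub (measurable_snd.pow_const p)).div
      (measurable_fst.sub measurable_snd))
  exact (measurable_from_nat (f := fun n : ℕ => if (roughPart p n).Prime then (1 : ℝ) else 0)).comp h1

lemma gg_abs (p : ℕ) (z : ℝ × ℝ) : |gg p z| ≤ 1 := by unfold gg; split_ifs <;> norm_num

/-- the map to the coordinates `(a, b)` -/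
noncomputable def TT (u : ℝ × ℝ) : ℝ × ℝ := (Real.exp u.1, Real.exp u.1 * rr u.2)

lemma continuous_rr : Continuous rr := by unfold rr; fun_prop

lemma continuous_TT : Continuous TT := by
  unfold TT
  exact (Real.continuous_exp.comp continuous_fst).prodMk
    ((Real.continuous_exp.comp continuous_fst).mul (continuous_rr.comp continuous_snd))

lemma rr_lt_one (s : ℝ) : rr s < 1 := by unfold rr; linarith [Real.exp_pos (-s)]

lemma rr_abs {s : ℝ} (hs : -Real.log 2 < s) : |rr s| < 1 := by
  have h1 : Real.exp (-s) < 2 := by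
    have : Real.exp (-s) < Real.exp (Real.log 2) := Real.exp_lt_exp.2 (by linarith)
    rwa [Real.exp_log two_pos] at this
  rw [abs_lt]
  exact ⟨by unfold rr; linarith, rr_lt_one s⟩

lemma value {s : ℝ} (hs : -Real.log 2 < s) (x : ℝ) {p : ℕ} (hp : p ≠ 0) :
    ((TT (x, s)).1 ^ p - (TT (x, s)).2 ^ p) / ((TT (x, s)).1 - (TT (x, s)).2) =
      Real.exp (p * x + (s - x) + EE p s) := by
  have h1 : |rr s ^ p| < 1 := by
    rw [abs_pow]
    exact pow_lt_one₀ (abs_nonneg _) (rr_abs hs) hp
  have h2 : 0 < 1 - rr s ^ p := by linarith [(abs_lt.1 h1).2]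
  unfold TT EE
  simp only
  rw [Real.exp_add, Real.exp_log h2, Real.exp_add, Real.exp_sub, mul_pow, ← Real.exp_nat_mul]
  have h3 : Real.exp x - Real.exp x * rr s = Real.exp x * Real.exp (-s) := by unfold rr; ring
  rw [h3, Real.exp_neg]
  have := Real.exp_pos x
  have := Real.exp_pos s
  field_simp

lemma ae_floor {s : ℝ} (hs : -Real.log 2 < s) {p : ℕ} (hp : 2 ≤ p) :
    ∀ᵐ x : ℝ, ff p (p * x + (s - x) + EE p s) = gg p (TT (x, s)) := by
  have hp' : (0 : ℝ) < p - 1 := by
    have : (2 : ℝ) ≤ p := by exact_mod_cast hp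
    linarith
  have h := (Set.countable_range (fun n : ℕ => (Real.log n - s - EE p s) / ((p : ℝ) - 1))).ae_notMem volume
  filter_upwards [h] with x hx
  unfold gg
  rw [value hs x (by omega)]
  have h1 := Pool.Agent.H447R2.ML.ff_eq_floor (p := p) (v := Real.exp (p * x + (s - x) + EE p s))
    (Real.exp_pos _) (fun m hm => hx ⟨m, by
      simp only
      rw [div_eq_iff hp'.ne']
      have h2 : p * x + (s - x) + EE p s = Real.log m := by rw [← hm, Real.log_exp]
      linarith⟩)
  rw [Real.log_exp] at h1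
  exact h1

lemma int_floor {χ : ℝ × ℝ → ℝ} {x0 x1 s0 s1 C : ℝ} (h : Wt χ x0 x1 s0 s1 C)
    (hs0 : -Real.log 2 < s0) {p q : ℕ} (hp : 2 ≤ p) (hq : 2 ≤ q) :
    ∫ u, χ u * Pt p q u = ∫ u, χ u * (gg p (TT u) * gg q (TT u)) := by
  have i1 : Integrable (fun u => χ u * Pt p q u) volume := h.int_mul (measurable_Pt p q) fun z => by
    unfold Pt
    rw [abs_of_nonneg (mul_nonneg (ff_nonneg _ _) (ff_nonneg _ _))]
    exact mul_le_one₀ (ff_le_one _ _) (ff_nonneg _ _) (ff_le_one _ _)
  have i2 : Integrable (fun u => χ u * (gg p (TT u) * gg q (TT u))) volume :=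
    h.int_mul (((measurable_gg p).comp continuous_TT.measurable).mul
      ((measurable_gg q).comp continuous_TT.measurable)) fun z => by
    rw [abs_mul]
    exact mul_le_one₀ (gg_abs _ _) (abs_nonneg _) (gg_abs _ _)
  rw [Measure.volume_eq_prod] at i1 i2 ⊢
  rw [integral_prod_symm _ i1, integral_prod_symm _ i2]
  refine integral_congr_ae (Eventually.of_forall fun s => ?_)
  simp only
  by_cases hs : -Real.log 2 < s
  · refine integral_congr_ae ?_
    filter_upwards [ae_floor hs hp, ae_floor hs hq] with x h1 h2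
    unfold Pt
    simp only
    rw [h1, h2]
  · have : ∀ x, χ (x, s) = 0 := fun x => h.supp _ fun hz => hs (hs0.trans hz.2.1)
    simp only [this, zero_mul]

/-- **The change of variables.** -/
theorem cov {ω : ℝ × ℝ → ℝ} (hω : ∀ z, ω z ≠ 0 → 1 < z.1 ∧ |z.2| < z.1) {g : ℝ × ℝ → ℝ}
    (i1 : Integrable (fun z => ω z * g z) volume)
    (i2 : Integrable (fun u : ℝ × ℝ => ω (TT u) * Real.exp (2 * u.1 - u.2) * g (TT u)) volume) :
    ∫ z, ω z * g z = ∫ u : ℝ × ℝ, ω (TT u) * Real.exp (2 * u.1 - u.2) * g (TT u) := by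
  rw [Measure.volume_eq_prod] at i1 i2 ⊢
  rw [integral_prod _ i1, integral_prod _ i2]
  set H : ℝ → ℝ := fun a => ∫ b, ω (a, b) * g (a, b) with hH
  have e1 : ∫ a, ∫ b, ω (a, b) * g (a, b) = ∫ a in Set.Ioi 0, H a :=
    (setIntegral_eq_integral_of_forall_compl_eq_zero (fun a ha => by
      have ha' : a ≤ 0 := not_lt.1 ha
      have : ∀ b, ω (a, b) = 0 := fun b => by
        by_contra hn
        have := (hω _ hn).1
        simp only at this
        linarith
      simp only [this, zero_mul, integral_zero])).symm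
  have e2 : ∫ a in Set.Ioi 0, H a = ∫ x, Real.exp x * H (Real.exp x) := by
    have h := integral_image_eq_integral_abs_deriv_smul (s := Set.univ) MeasurableSet.univ
      (f := Real.exp) (f' := Real.exp) (fun x _ => (Real.hasDerivAt_exp x).hasDerivWithinAt)
      Real.exp_injective.injOn H
    rw [Set.image_univ, Real.range_exp, setIntegral_univ] at h
    rw [h]
    refine integral_congr_ae (Eventually.of_forall fun x => ?_)
    simp only [smul_eq_mul, abs_of_pos (Real.exp_pos x)]
  have e3 : ∀ x : ℝ, H (Real.exp x) = ∫ s, Real.exp x * Real.exp (-s) *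
      (ω (TT (x, s)) * g (TT (x, s))) := by
    intro x
    set a := Real.exp x with ha
    have ha0 : 0 < a := Real.exp_pos x
    have h := integral_image_eq_integral_abs_deriv_smul (s := Set.univ) MeasurableSet.univ
      (f := fun s => a * rr s) (f' := fun s => a * Real.exp (-s)) (fun s _ => by
        have h0 := (((hasDerivAt_neg s).exp).const_sub 1).const_mul a
        have e : a * (-(Real.exp (-s) * (-1 : ℝ))) = a * Real.exp (-s) := by ring
        rw [e] at h0
        exact h0.hasDerivWithinAt) (fun s _ t _ hst => by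
        have h1 : rr s = rr t := mul_left_cancel₀ ha0.ne' hst
        unfold rr at h1
        have h2 : Real.exp (-s) = Real.exp (-t) := by linarith
        have := Real.exp_injective h2
        linarith) (fun b => ω (a, b) * g (a, b))
    have himg : (fun s => a * rr s) '' Set.univ = Set.Iio a := by
      ext b
      constructor
      · rintro ⟨s, _, rfl⟩
        simp only [Set.mem_Iio]
        nlinarith [rr_lt_one s]
      · intro hb
        have hb' : b < a := hb
        refine ⟨-Real.log (1 - b / a), trivial, ?_⟩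
        have h1 : 0 < 1 - b / a := by
          rw [sub_pos, div_lt_one ha0]; exact hb'
        simp only [rr, neg_neg, Real.exp_log h1]
        field_simp
        ring
    rw [himg, setIntegral_univ] at h
    have e4 : H a = ∫ b in Set.Iio a, ω (a, b) * g (a, b) :=
      (setIntegral_eq_integral_of_forall_compl_eq_zero (fun b hb => by
        have hb' : a ≤ b := not_lt.1 hb
        have : ω (a, b) = 0 := by
          by_contra hn
          have := (hω _ hn).2
          simp only at this
          have := le_abs_self b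
          linarith
        rw [this, zero_mul])).symm
    rw [e4, h]
    refine integral_congr_ae (Eventually.of_forall fun s => ?_)
    simp only [smul_eq_mul]
    rw [abs_of_pos (mul_pos ha0 (Real.exp_pos _))]
    rfl
  rw [e1, e2]
  refine integral_congr_ae (Eventually.of_forall fun x => ?_)
  simp only
  rw [e3, ← integral_const_mul]
  refine integral_congr_ae (Eventually.of_forall fun s => ?_)
  simp only
  rw [show 2 * x - s = x + x + -s by ring, Real.exp_add, Real.exp_add]
  ring

lemma cpt_bounds {K : Set (ℝ × ℝ)} (hK : IsCompact K) {f : ℝ × ℝ → ℝ} (hf : ContinuousOn f K)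
    {c : ℝ} (h : ∀ z ∈ K, c < f z) : ∃ l u : ℝ, c < l ∧ ∀ z ∈ K, l < f z ∧ f z ≤ u := by
  rcases K.eq_empty_or_nonempty with h0 | h0
  · refine ⟨c + 1, 0, by linarith, fun z hz => ?_⟩
    rw [h0] at hz
    exact absurd hz (Set.notMem_empty z)
  · obtain ⟨z1, hz1, h1⟩ := hK.exists_isMinOn h0 hf
    obtain ⟨z2, hz2, h2⟩ := hK.exists_isMaxOn h0 hf
    have h3 := h z1 hz1
    refine ⟨(c + f z1) / 2, f z2, by linarith, fun z hz => ⟨?_, h2 hz⟩⟩
    have h4 : f z1 ≤ f z := h1 hz
    linarith

/-- the weight in the new coordinates -/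
noncomputable def wt (ω : ℝ × ℝ → ℝ) (u : ℝ × ℝ) : ℝ := ω (TT u) * Real.exp (2 * u.1 - u.2)

theorem wt_Wt {ω : ℝ × ℝ → ℝ} (hc : Continuous ω) (hcomp : HasCompactSupport ω)
    (hω : tsupport ω ⊆ {z | 1 < z.1 ∧ |z.2| < z.1}) :
    ∃ x0 x1 s0 s1 C : ℝ, 0 < x0 ∧ -Real.log 2 < s0 ∧ Wt (wt ω) x0 x1 s0 s1 C ∧
      ∀ z, ω z ≠ 0 → x0 < Real.log z.1 := by
  have hK : IsCompact (tsupport ω) := hcomp
  obtain ⟨x0, x1, hx0, hx⟩ := cpt_bounds hK (f := fun z => Real.log z.1) (c := 0)
    (ContinuousOn.log continuous_fst.continuousOn fun z hz => by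
      have := (hω hz).1
      have h' : (0 : ℝ) < z.1 := by linarith
      exact h'.ne') (fun z hz => Real.log_pos (hω hz).1)
  have hpos : ∀ z ∈ tsupport ω, 0 < 1 - z.2 / z.1 ∧ 1 - z.2 / z.1 < 2 := fun z hz => by
    obtain ⟨h1, h2⟩ := hω hz
    have h3 : 0 < z.1 := by linarith
    obtain ⟨h4, h5⟩ := abs_lt.1 h2
    constructor
    · rw [sub_pos, div_lt_one h3]; exact h5
    · have : -1 < z.2 / z.1 := by rw [lt_div_iff₀ h3]; linarith
      linarith
  obtain ⟨s0, s1, hs0, hs⟩ := cpt_bounds hK (f := fun z => -Real.log (1 - z.2 / z.1)) (c := -Real.log 2)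
    (ContinuousOn.neg (ContinuousOn.log (continuousOn_const.sub (continuous_snd.continuousOn.div
      continuous_fst.continuousOn fun z hz => by
        have := (hω hz).1
        have h' : (0 : ℝ) < z.1 := by linarith
        exact h'.ne')) fun z hz => (hpos z hz).1.ne'))
    (fun z hz => neg_lt_neg (Real.log_lt_log (hpos z hz).1 (hpos z hz).2))
  have hcont : Continuous (wt ω) := (hc.comp continuous_TT).mul (by fun_prop)
  have hbox : ∀ u : ℝ × ℝ, wt ω u ≠ 0 → u ∈ Bx x0 x1 s0 s1 := by
    intro u hu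
    have h1 : ω (TT u) ≠ 0 := fun h => hu (by unfold wt; rw [h, zero_mul])
    have h2 : TT u ∈ tsupport ω := subset_tsupport ω h1
    have h3 := hx _ h2
    have h4 := hs _ h2
    have e1 : Real.log (TT u).1 = u.1 := by unfold TT; simp
    have e2 : -Real.log (1 - (TT u).2 / (TT u).1) = u.2 := by
      have : (TT u).2 / (TT u).1 = rr u.2 := by
        unfold TT
        simp only
        field_simp
      rw [this]
      unfold rr
      rw [sub_sub_cancel, Real.log_exp, neg_neg]
    rw [e1] at h3
    rw [e2] at h4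
    exact ⟨⟨h3.1, h3.2⟩, h4.1, h4.2⟩
  have hcs : HasCompactSupport (wt ω) := by
    refine HasCompactSupport.intro (K := Set.Icc x0 x1 ×ˢ Set.Icc s0 s1) (isCompact_Icc.prod isCompact_Icc)
      fun u hu => ?_
    by_contra hn
    obtain ⟨⟨a1, a2⟩, a3, a4⟩ := hbox u hn
    exact hu ⟨⟨a1.le, a2⟩, a3.le, a4⟩
  obtain ⟨C, hC⟩ := hcont.bounded_above_of_compact_support hcs
  have huc := hcs.uniformContinuous_of_continuous hcont
  refine ⟨x0, x1, s0, s1, C, hx0, hs0, ⟨hcont.measurable, fun z => by
    have := hC z; rwa [Real.norm_eq_abs] at this, fun z hz => by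
      by_contra hn; exact hz (hbox z hn), fun ε hε => ?_⟩, fun z hz => (hx z (subset_tsupport ω hz)).1⟩
  obtain ⟨δ, hδ, hd⟩ := Metric.uniformContinuous_iff.1 huc ε hε
  refine ⟨δ / 2, by positivity, fun z v h1 h2 => ?_⟩
  have h3 : dist (z + v) z < δ := by
    rw [dist_eq_norm, add_sub_cancel_left, Prod.norm_def]
    refine max_lt ?_ ?_
    · rw [Real.norm_eq_abs]; linarith
    · rw [Real.norm_eq_abs]; linarith
  have h4 := hd h3
  rw [Real.dist_eq] at h4
  exact h4.le

/-- **The pair correlations of the exponents.** -/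
theorem pairs {ω : ℝ × ℝ → ℝ} (hc : Continuous ω) (hcomp : HasCompactSupport ω)
    (hω : tsupport ω ⊆ {z | 1 < z.1 ∧ |z.2| < z.1}) {a b c d : ℝ}
    (ha : 0 < a) (hab : a < b) (hc' : 0 < c) (hcd : c < d) (S S' : Set ℕ) :
    Tendsto (fun t : ℝ => (∫ z, ω z * ∑ p ∈ Pr (a * t) (b * t), ∑ q ∈ Pr (c * t) (d * t),
      S.indicator (fun _ => (1 : ℝ)) p * S'.indicator (fun _ => (1 : ℝ)) q *
      if p ≠ q then gg p z * gg q z else 0) -
      (∫ z, ω z * ((eg / Real.log z.1) * (eg / Real.log z.1))) *
        ((∑ p ∈ Pr (a * t) (b * t), S.indicator (fun _ => (1 : ℝ)) p * w p) *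
        ∑ q ∈ Pr (c * t) (d * t), S'.indicator (fun _ => (1 : ℝ)) q * w q)) atTop (𝓝 0) := by
  obtain ⟨x0, x1, s0, s1, C, hx0, hs0, hW, hlog⟩ := wt_Wt hc hcomp hω
  have hω' : ∀ z, ω z ≠ 0 → 1 < z.1 ∧ |z.2| < z.1 := fun z hz => hω (subset_tsupport ω hz)
  have hint : Integrable ω volume := hc.integrable_of_hasCompactSupport hcomp
  have hWi : Integrable (wt ω) volume := by
    have := hW.int_mul (g := fun _ => 1) measurable_const (fun _ => by simp)
    simpa using this
  have e1 : ∫ u, wt ω u * ((eg / u.1) * (eg / u.1)) =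
      ∫ z, ω z * ((eg / Real.log z.1) * (eg / Real.log z.1)) := by
    set g : ℝ × ℝ → ℝ := fun z => (eg / max x0 (Real.log z.1)) * (eg / max x0 (Real.log z.1)) with hg
    have hgm : Measurable g := by
      have : Measurable (fun z : ℝ × ℝ => eg / max x0 (Real.log z.1)) :=
        measurable_const.div (measurable_const.max (Real.measurable_log.comp measurable_fst))
      exact this.mul this
    have hgb : ∀ z, ‖g z‖ ≤ (eg / x0) * (eg / x0) := by
      intro z
      have h1 : 0 < max x0 (Real.log z.1) := lt_max_of_lt_left hx0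
      have h2 : eg / max x0 (Real.log z.1) ≤ eg / x0 :=
        div_le_div_of_nonneg_left eg_pos.le hx0 (le_max_left _ _)
      have h3 : 0 < eg / max x0 (Real.log z.1) := div_pos eg_pos h1
      rw [hg]
      simp only
      rw [Real.norm_of_nonneg (by positivity)]
      exact mul_le_mul h2 h2 h3.le (div_pos eg_pos hx0).le
    have k1 : ∀ z, ω z * ((eg / Real.log z.1) * (eg / Real.log z.1)) = ω z * g z := by
      intro z
      by_cases hz : ω z = 0
      · rw [hz, zero_mul, zero_mul]
      · rw [hg]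
        simp only
        rw [max_eq_right (hlog z hz).le]
    have k2 : ∀ u : ℝ × ℝ, wt ω u * ((eg / u.1) * (eg / u.1)) =
        ω (TT u) * Real.exp (2 * u.1 - u.2) * g (TT u) := by
      intro u
      by_cases hz : ω (TT u) = 0
      · unfold wt
        rw [hz, zero_mul, zero_mul, zero_mul]
      · have h1 := hlog _ hz
        have e : Real.log (TT u).1 = u.1 := by unfold TT; simp
        rw [hg]
        simp only
        rw [max_eq_right h1.le, e]
        rfl
    simp only [k1, k2]
    refine (cov hω' (hint.mul_bdd hgm.aestronglyMeasurable (Eventually.of_forall hgb)) ?_).symm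
    exact hWi.mul_bdd (hgm.comp continuous_TT.measurable).aestronglyMeasurable
      (Eventually.of_forall fun u => hgb _)
  have h := sum_coef (sum_Pt hW hx0 hs0 ha hab hc' hcd) S S'
  rw [e1] at h
  refine h.congr' ?_
  filter_upwards [eventually_gt_atTop 0] with t ht
  congr 1
  have i1 : ∀ p q : ℕ, Integrable (fun z => ω z * if p ≠ q then gg p z * gg q z else 0) volume := by
    intro p q
    refine hint.mul_bdd (c := 1) (Measurable.aestronglyMeasurable ?_) (Eventually.of_forall fun z => ?_)
    · by_cases hpq : p ≠ q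
      · simp only [if_pos hpq]; exact (measurable_gg p).mul (measurable_gg q)
      · simp only [if_neg hpq]; exact measurable_const
    · rw [Real.norm_eq_abs]
      split_ifs
      · rw [abs_mul]
        exact mul_le_one₀ (gg_abs _ _) (abs_nonneg _) (gg_abs _ _)
      · simp
  have e2 : ∀ z, ω z * ∑ p ∈ Pr (a * t) (b * t), ∑ q ∈ Pr (c * t) (d * t),
      S.indicator (fun _ => (1 : ℝ)) p * S'.indicator (fun _ => (1 : ℝ)) q *
      (if p ≠ q then gg p z * gg q z else 0) =
      ∑ p ∈ Pr (a * t) (b * t), ∑ q ∈ Pr (c * t) (d * t),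
        S.indicator (fun _ => (1 : ℝ)) p * S'.indicator (fun _ => (1 : ℝ)) q *
        (ω z * if p ≠ q then gg p z * gg q z else 0) := by
    intro z
    rw [Finset.mul_sum]
    exact Finset.sum_congr rfl fun p _ => by
      rw [Finset.mul_sum]
      exact Finset.sum_congr rfl fun q _ => by ring
  simp only [e2]
  rw [integral_finsetSum _ (fun p _ => integrable_finsetSum _ fun q _ => (i1 p q).const_mul _)]
  refine Finset.sum_congr rfl fun p hp => ?_
  rw [integral_finsetSum _ (fun q _ => (i1 p q).const_mul _)]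
  refine Finset.sum_congr rfl fun q hq => ?_
  rw [integral_const_mul]
  congr 1
  have hb : 0 < b := ha.trans hab
  have hd : 0 < d := hc'.trans hcd
  have hp2 : 2 ≤ p := ((mem_Pr (by positivity) (by positivity)).1 hp).1.two_le
  have hq2 : 2 ≤ q := ((mem_Pr (by positivity) (by positivity)).1 hq).1.two_le
  by_cases hpq : p ≠ q
  · simp only [if_pos hpq]
    rw [int_floor hW hs0 hp2 hq2]
    have i2 : Integrable (fun z => ω z * (gg p z * gg q z)) volume := by
      have := i1 p q
      simpa only [if_pos hpq] using this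
    have i3 : Integrable (fun u : ℝ × ℝ => ω (TT u) * Real.exp (2 * u.1 - u.2) *
        (gg p (TT u) * gg q (TT u))) volume :=
      hW.int_mul (((measurable_gg p).comp continuous_TT.measurable).mul
        ((measurable_gg q).comp continuous_TT.measurable)) fun z => by
        rw [abs_mul]
        exact mul_le_one₀ (gg_abs _ _) (abs_nonneg _) (gg_abs _ _)
    rw [cov hω' (g := fun z => gg p z * gg q z) i2 i3]
    rfl
  · simp only [if_neg hpq]
    simp

end Pool.Agent.K3h13.PCO
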